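import Mathlib

set_option autoImplicit false

/-!
# Finitely many dilation functions with a prescribed number of integer points

For a fixed integer matrix `M`, among the polyhedra `{y : M y ≤ b}` with exactly `m ≥ 1` integer
points there are only finitely many functions `k ↦ #(integer points of the k-th dilation)`.
-/

namespace Pool.Agent.H634R3.KF

variable {ι : Type*}

/-- integer points of the polyhedron `M y ≤ b` -/
def P {L : Type*} (M : L → (ι → ℤ) →+ ℤ) (b : L → ℤ) : Set (ι → ℤ) := {y | ∀ l, M l y ≤ b l}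

theorem mem_P {L : Type*} {M : L → (ι → ℤ) →+ ℤ} {b : L → ℤ} {y : ι → ℤ} :
    y ∈ P M b ↔ ∀ l, M l y ≤ b l := Iff.rfl

/-- no recession directions -/
theorem recession {C : Type*} {N : C → (ι → ℤ) →+ ℤ} {s : C → ℤ} (hs : ∀ c, 0 ≤ s c)
    (hfin : (P N s).Finite) {r : ι → ℤ} (hr : ∀ c, N c r ≤ 0) : r = 0 := by
  by_contra hne
  have hinj : Function.Injective (fun t : ℕ => (t : ℤ) • r) := by
    intro a b hab
    obtain ⟨i, hi⟩ : ∃ i, r i ≠ 0 := by
      by_contra h
      push Not at h
      exact hne (funext h)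
    have := congrFun hab i
    simp only [Pi.smul_apply, smul_eq_mul] at this
    have := mul_right_cancel₀ hi this
    exact_mod_cast this
  refine (Set.infinite_of_injective_forall_mem hinj ?_) hfin
  intro t c
  rw [map_zsmul, smul_eq_mul]
  have h1 : (0 : ℤ) ≤ t := Int.natCast_nonneg t
  have h2 := hr c
  have h3 := hs c
  nlinarith

/-- The homogenised bound. -/
theorem bound {C L : Type*} [Finite C] [Finite L] {N : C → (ι → ℤ) →+ ℤ} {s : C → ℤ}
    (hs : ∀ c, 0 ≤ s c) (hfin : (P N s).Finite) (φ : L → (ι → ℤ) →+ ℤ) :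
    ∃ B : ℕ, ∀ (k : ℕ) (y : ι → ℤ), (∀ c, N c y ≤ k * s c) → ∀ l, φ l y ≤ k * B := by
  classical
  have := Fintype.ofFinite L
  -- the submonoid of slack vectors
  let S : AddSubmonoid (Option C → ℕ) :=
    { carrier := {u | ∃ y : ι → ℤ, ∀ c, (u (some c) : ℤ) = u none * s c - N c y}
      zero_mem' := ⟨0, fun c => by simp⟩
      add_mem' := by
        rintro u v ⟨y, hy⟩ ⟨z, hz⟩
        refine ⟨y + z, fun c => ?_⟩
        have h1 := hy c
        have h2 := hz c
        simp only [Pi.add_apply, map_add]
        push_cast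
        rw [h1, h2]
        ring }
  have hS : S.FG := by
    apply AddSubmonoid.fg_of_subtractive
    rintro u ⟨y, hy⟩ v ⟨z, hz⟩
    refine ⟨z - y, fun c => ?_⟩
    have h1 := hy c
    have h2 := hz c
    simp only [Pi.add_apply, map_sub] at h2 ⊢
    push_cast at h2
    rw [h1] at h2
    linarith
  obtain ⟨T, hT⟩ := hS
  have huniq : ∀ y z : ι → ℤ, (∀ c, N c y = N c z) → y = z := by
    intro y z h
    have : y - z = 0 := recession hs hfin (fun c => by rw [map_sub, h c, sub_self])
    exact sub_eq_zero.mp this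
  -- representatives of the generators
  let rep : (Option C → ℕ) → (ι → ℤ) := fun u =>
    if h : ∃ y : ι → ℤ, ∀ c, (u (some c) : ℤ) = u none * s c - N c y then h.choose else 0
  let B : ℕ := ∑ u ∈ T, ∑ l, (φ l (rep u)).toNat
  refine ⟨B, ?_⟩
  have key : ∀ u ∈ S, ∀ y : ι → ℤ, (∀ c, (u (some c) : ℤ) = u none * s c - N c y) →
      ∀ l, φ l y ≤ u none * B := by
    intro u hu
    rw [← hT] at hu
    induction hu using AddSubmonoid.closure_induction with
    | mem u hu =>
      intro y hy l
      have hex : ∃ y : ι → ℤ, ∀ c, (u (some c) : ℤ) = u none * s c - N c y := ⟨y, hy⟩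
      have hrep : rep u = y := by
        apply huniq
        intro c
        have h1 : rep u = hex.choose := dif_pos hex
        have h2 := hex.choose_spec c
        rw [← h1] at h2
        have h3 := hy c
        linarith
      by_cases h0 : u none = 0
      · have : y = 0 := by
          apply recession hs hfin
          intro c
          have h3 := hy c
          rw [h0] at h3
          have : (0 : ℤ) ≤ (u (some c) : ℤ) := Int.natCast_nonneg _
          simp only [Nat.cast_zero, zero_mul, zero_sub] at h3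
          linarith
        rw [this, h0]
        simp
      · have h1 : φ l y ≤ B := by
          have e1 : (φ l (rep u)).toNat ≤ ∑ l, (φ l (rep u)).toNat :=
            Finset.single_le_sum (f := fun l => (φ l (rep u)).toNat)
              (fun _ _ => Nat.zero_le _) (Finset.mem_univ l)
          have e2 : ∑ l, (φ l (rep u)).toNat ≤ B :=
            Finset.single_le_sum (f := fun u => ∑ l, (φ l (rep u)).toNat)
              (fun _ _ => Nat.zero_le _) hu
          have e3 : φ l (rep u) ≤ ((φ l (rep u)).toNat : ℤ) := Int.self_le_toNat _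
          rw [hrep] at e1 e2 e3
          have e4 : ((φ l y).toNat : ℤ) ≤ (B : ℤ) := by exact_mod_cast e1.trans e2
          exact e3.trans e4
        have h2 : (1 : ℤ) ≤ (u none : ℤ) := by exact_mod_cast Nat.one_le_iff_ne_zero.mpr h0
        have h3 : (0 : ℤ) ≤ (B : ℤ) := Int.natCast_nonneg _
        nlinarith
    | zero =>
      intro y hy l
      have : y = 0 := by
        apply recession hs hfin
        intro c
        have h3 := hy c
        simp at h3
        linarith
      rw [this]
      simp
    | add u v hu hv ihu ihv =>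
      intro y hy l
      rw [hT] at hu hv
      obtain ⟨y1, hy1⟩ := hu
      obtain ⟨y2, hy2⟩ := hv
      have e : y = y1 + y2 := by
        apply huniq
        intro c
        have h1 := hy1 c
        have h2 := hy2 c
        have h3 := hy c
        simp only [Pi.add_apply] at h3
        push_cast at h3
        rw [map_add]
        linarith
      rw [e, map_add]
      have h1 := ihu y1 hy1 l
      have h2 := ihv y2 hy2 l
      simp only [Pi.add_apply]
      push_cast
      linarith
  intro k y hy l
  let u : Option C → ℕ := fun o => o.elim k (fun c => (k * s c - N c y).toNat)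
  have hu1 : u none = k := rfl
  have hu2 : ∀ c, (u (some c) : ℤ) = u none * s c - N c y := by
    intro c
    change (((k * s c - N c y).toNat : ℕ) : ℤ) = (k : ℤ) * s c - N c y
    apply Int.toNat_of_nonneg
    have := hy c
    linarith
  have := key u ⟨y, hu2⟩ y hu2 l
  rwa [hu1] at this

/-- translation -/
theorem ncard_translate {L : Type*} (M : L → (ι → ℤ) →+ ℤ) (b : L → ℤ) (z : ι → ℤ) (k : ℕ) :
    (P M (fun l => k * b l)).ncard = (P M (fun l => k * (b l - M l z))).ncard := by
  have : P M (fun l => k * b l) = (fun y => y + (k : ℤ) • z) '' P M (fun l => k * (b l - M l z)) := by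
    ext y
    constructor
    · intro hy
      refine ⟨y - (k : ℤ) • z, ?_, by simp⟩
      intro l
      have := hy l
      rw [map_sub, map_zsmul, smul_eq_mul]
      linarith
    · rintro ⟨x, hx, rfl⟩ l
      have := hx l
      simp only at this ⊢
      rw [map_add, map_zsmul, smul_eq_mul]
      linarith
  rw [this, Set.ncard_image_of_injective _ (add_left_injective _)]

/-- **Main finiteness lemma.** -/
theorem finite_functions {L : Type*} [Finite L] (M : L → (ι → ℤ) →+ ℤ) (m : ℕ) (hm : 1 ≤ m) :
    {f : ℕ → ℕ | ∃ b : L → ℤ, (P M b).ncard = m ∧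
      ∀ k, f k = (P M (fun l => k * b l)).ncard}.Finite := by
  classical
  have := Fintype.ofFinite L
  by_contra hinf
  have hinf' : {f : ℕ → ℕ | ∃ b : L → ℤ, (P M b).ncard = m ∧
      ∀ k, f k = (P M (fun l => k * b l)).ncard}.Infinite := hinf
  let F : ℕ ↪ {f : ℕ → ℕ | ∃ b : L → ℤ, (P M b).ncard = m ∧
      ∀ k, f k = (P M (fun l => k * b l)).ncard} := hinf'.natEmbedding
  have hF : ∀ t, ∃ b : L → ℤ, (P M b).ncard = m ∧
      ∀ k, (F t).1 k = (P M (fun l => k * b l)).ncard := fun t => (F t).2
  choose b hb1 hb2 using hF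
  have hz : ∀ t, ∃ z, z ∈ P M (b t) := by
    intro t
    by_contra h
    push Not at h
    have : P M (b t) = ∅ := Set.eq_empty_of_forall_notMem h
    have h2 := hb1 t
    rw [this, Set.ncard_empty] at h2
    omega
  choose z hz using hz
  let s0 : ℕ → L → ℕ := fun t l => (b t l - M l (z t)).toNat
  have hs0 : ∀ t l, (s0 t l : ℤ) = b t l - M l (z t) := by
    intro t l
    apply Int.toNat_of_nonneg
    have := hz t l
    linarith
  obtain ⟨g, hg⟩ := (wellQuasiOrdered_le (α := L → ℕ)).exists_monotone_subseq s0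
  let s : ℕ → L → ℕ := fun t => s0 (g t)
  have hsmono : ∀ t t', t ≤ t' → ∀ l, s t l ≤ s t' l := fun t t' h => hg t t' h
  have hcard : ∀ t k : ℕ, (F (g t)).1 k = (P M (fun l => (k : ℤ) * (s t l : ℤ))).ncard := by
    intro t k
    rw [hb2 (g t) k, ncard_translate M (b (g t)) (z (g t)) k]
    congr 2
    funext l
    rw [hs0]
  have hcard1 : ∀ t, (P M (fun l => (s t l : ℤ))).ncard = m := by
    intro t
    have h1 := hb1 (g t)
    have h2 := ncard_translate M (b (g t)) (z (g t)) 1
    simp only [Nat.cast_one, one_mul] at h2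
    rw [h2] at h1
    rw [← h1]
    congr 2
    funext l
    exact hs0 (g t) l
  have hsub : ∀ t t', t ≤ t' → P M (fun l => (s t l : ℤ)) ⊆ P M (fun l => (s t' l : ℤ)) := by
    intro t t' h y hy l
    have h1 := hy l
    have h2 : (s t l : ℤ) ≤ (s t' l : ℤ) := by exact_mod_cast hsmono t t' h l
    simp only at h1 ⊢
    linarith
  have hfin : ∀ t, (P M (fun l => (s t l : ℤ))).Finite := by
    intro t
    apply Set.finite_of_ncard_ne_zero
    rw [hcard1]
    omega
  have hconst : ∀ t, P M (fun l => (s t l : ℤ)) = P M (fun l => (s 0 l : ℤ)) := by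
    intro t
    symm
    apply Set.eq_of_subset_of_ncard_le (hsub 0 t (Nat.zero_le _)) _ (hfin t)
    rw [hcard1, hcard1]
  -- bounded coordinates
  let C := {l : L // ∃ B, ∀ t, s t l ≤ B}
  have hstab : ∃ t0, ∀ t, t0 ≤ t → ∀ l : C, s t l.1 = s t0 l.1 := by
    have : ∀ l : C, ∃ t0, ∀ t, t0 ≤ t → s t l.1 = s t0 l.1 := by
      rintro ⟨l, B, hB⟩
      -- choose the maximal value
      have hne : ∃ v, ∃ t, s t l = v ∧ ∀ t', s t' l ≤ v := by
        have hbdd : BddAbove (Set.range fun t => s t l) := ⟨B, by rintro _ ⟨t, rfl⟩; exact hB t⟩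
        have hmem := Nat.sSup_mem (Set.range_nonempty fun t => s t l) hbdd
        obtain ⟨t, ht⟩ := hmem
        exact ⟨_, t, ht, fun t' => le_csSup hbdd ⟨t', rfl⟩⟩
      obtain ⟨v, t0, ht0, hv⟩ := hne
      refine ⟨t0, fun t ht => ?_⟩
      apply le_antisymm
      · simp only at ht0 ⊢
        rw [ht0]; exact hv t
      · exact hsmono _ _ ht _
    choose t0 ht0 using this
    refine ⟨Finset.univ.sup t0, fun t ht l => ?_⟩
    have h1 : t0 l ≤ Finset.univ.sup t0 := Finset.le_sup (Finset.mem_univ l)
    rw [ht0 l t (h1.trans ht), ht0 l _ h1]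
  obtain ⟨t0, ht0⟩ := hstab
  let N : C → (ι → ℤ) →+ ℤ := fun c => M c.1
  let sC : C → ℤ := fun c => (s t0 c.1 : ℤ)
  -- beyond every bound
  have hunb : ∀ B : ℕ, ∃ t, t0 ≤ t ∧ ∀ l : L, (¬ ∃ B, ∀ t, s t l ≤ B) → B ≤ s t l := by
    intro B
    have : ∀ l : {l : L // ¬ ∃ B, ∀ t, s t l ≤ B}, ∃ t, B ≤ s t l.1 := by
      rintro ⟨l, hl⟩
      push Not at hl
      obtain ⟨t, ht⟩ := hl B
      exact ⟨t, ht.le⟩
    choose t1 ht1 using this
    refine ⟨max t0 (Finset.univ.sup t1), le_max_left _ _, fun l hl => ?_⟩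
    have h1 : t1 ⟨l, hl⟩ ≤ Finset.univ.sup t1 := Finset.le_sup (Finset.mem_univ _)
    exact (ht1 ⟨l, hl⟩).trans (hsmono _ _ (h1.trans (le_max_right _ _)) _)
  have hQ : (P N sC).Finite := by
    apply (hfin 0).subset
    intro y hy
    obtain ⟨t, ht, htB⟩ := hunb (∑ l, (M l y).toNat)
    rw [← hconst t]
    intro l
    by_cases hl : ∃ B, ∀ t, s t l ≤ B
    · have h1 := hy ⟨l, hl⟩
      have h2 := ht0 t ht ⟨l, hl⟩
      simp only [N, sC] at h1 h2 ⊢
      rw [h2]
      exact h1
    · have h1 := htB l hl
      have h2 : (M l y).toNat ≤ ∑ l, (M l y).toNat :=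
        Finset.single_le_sum (f := fun l => (M l y).toNat)
          (fun _ _ => Nat.zero_le _) (Finset.mem_univ l)
      have h3 : M l y ≤ ((M l y).toNat : ℤ) := Int.self_le_toNat _
      have h4 : ((M l y).toNat : ℤ) ≤ (s t l : ℤ) := by exact_mod_cast h2.trans h1
      exact h3.trans h4
  obtain ⟨B, hB⟩ := bound (fun c => Int.natCast_nonneg _) hQ M
  obtain ⟨t1, ht1, ht1B⟩ := hunb B
  -- for `t ≥ t1` the functions are all the same
  have hsame : ∀ t, t1 ≤ t → ∀ k : ℕ, P M (fun l => (k : ℤ) * (s t l : ℤ)) =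
      P N (fun c => (k : ℤ) * sC c) := by
    intro t ht k
    ext y
    constructor
    · intro hy c
      have h1 := hy c.1
      have h2 := ht0 t (ht1.trans ht) c
      simp only [N, sC] at h1 h2 ⊢
      rw [h2] at h1
      exact h1
    · intro hy l
      by_cases hl : ∃ B, ∀ t, s t l ≤ B
      · have h1 := hy ⟨l, hl⟩
        have h2 := ht0 t (ht1.trans ht) ⟨l, hl⟩
        simp only [N, sC] at h1 h2 ⊢
        rw [h2]
        exact h1
      · have h1 := hB k y (fun c => hy c) l
        have h2 := (ht1B l hl).trans (hsmono _ _ ht l)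
        have h3 : (B : ℤ) ≤ (s t l : ℤ) := by exact_mod_cast h2
        have h4 : (0 : ℤ) ≤ (k : ℤ) := Int.natCast_nonneg _
        simp only
        nlinarith
  have h1 : (F (g t1)).1 = (F (g (t1 + 1))).1 := by
    funext k
    rw [hcard, hcard, hsame t1 le_rfl, hsame (t1 + 1) (Nat.le_succ _)]
  have h2 := F.injective (Subtype.ext h1)
  have h3 := g.injective h2
  omega

end Pool.Agent.H634R3.KF
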