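import Mathlib

set_option autoImplicit false

/-!
# Gelfand–Tsetlin patterns: basic facts
-/

namespace Pool.Agent.H634R3.KF

open Finset

/-- Gelfand–Tsetlin patterns with `n` rows, top row `lam` and weight `nu`. Row `i` is `x i`
(row `0` is zero, all rows from `n` on are `lam`). -/
def GTP (n : ℕ) (lam nu : ℕ → ℕ) : Set (ℕ → ℕ → ℕ) :=
  {x | (∀ j, x 0 j = 0) ∧ (∀ i, n ≤ i → ∀ j, x i j = lam j) ∧
    (∀ i, i < n → ∀ j, x i j ≤ x (i + 1) j ∧ x (i + 1) (j + 1) ≤ x i j) ∧
    (∀ i, i < n → ∑ j ∈ range n, x (i + 1) j = ∑ j ∈ range n, x i j + nu i)}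

/-- the number of Gelfand–Tsetlin patterns -/
noncomputable def K (n : ℕ) (lam nu : ℕ → ℕ) : ℕ := (GTP n lam nu).ncard

variable {n : ℕ} {lam nu : ℕ → ℕ} {x : ℕ → ℕ → ℕ}

theorem gt_zero (hx : x ∈ GTP n lam nu) : ∀ i, i ≤ n → ∀ j, i ≤ j → x i j = 0 := by
  intro i
  induction i with
  | zero => intro _ j _; exact hx.1 j
  | succ i ih =>
    intro hi j hj
    obtain ⟨j', rfl⟩ : ∃ j', j = j' + 1 := ⟨j - 1, by omega⟩
    have h1 := ih (by omega) j' (by omega)
    have h2 := (hx.2.2.1 i (by omega) j').2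
    omega

theorem gt_lam_zero (hx : x ∈ GTP n lam nu) : ∀ j, n ≤ j → lam j = 0 := by
  intro j hj
  rw [← hx.2.1 n le_rfl j]
  exact gt_zero hx n le_rfl j hj

theorem gt_mono_succ (hx : x ∈ GTP n lam nu) (i j : ℕ) : x i j ≤ x (i + 1) j := by
  by_cases h : i < n
  · exact (hx.2.2.1 i h j).1
  · rw [hx.2.1 i (by omega) j, hx.2.1 (i + 1) (by omega) j]

theorem gt_mono (hx : x ∈ GTP n lam nu) (j : ℕ) : Monotone fun i => x i j :=
  monotone_nat_of_le_succ fun i => gt_mono_succ hx i j

theorem gt_le_lam (hx : x ∈ GTP n lam nu) (i j : ℕ) : x i j ≤ lam j := by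
  have h := gt_mono hx j (le_max_left i n)
  simp only at h
  rwa [hx.2.1 (max i n) (le_max_right _ _) j] at h

theorem gt_sum_eq (hx : x ∈ GTP n lam nu) : ∀ i, i ≤ n →
    ∑ j ∈ range n, x i j = ∑ j ∈ range i, nu j := by
  intro i
  induction i with
  | zero =>
    intro _
    simp [hx.1]
  | succ i ih =>
    intro hi
    rw [hx.2.2.2 i (by omega), ih (by omega), Finset.sum_range_succ]

theorem gt_sum_eq' (hx : x ∈ GTP n lam nu) (i : ℕ) (hi : i ≤ n) :
    ∑ j ∈ range i, x i j = ∑ j ∈ range i, nu j := by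
  rw [← gt_sum_eq hx i hi]
  apply Finset.sum_subset (Finset.range_mono hi)
  intro j _ hj2
  rw [Finset.mem_range, not_lt] at hj2
  exact gt_zero hx i hi j hj2

/-- dominance order -/
def Dom (n : ℕ) (lam nu : ℕ → ℕ) : Prop :=
  (∀ i, i < n → ∑ j ∈ range i, nu j ≤ ∑ j ∈ range i, lam j) ∧
    ∑ j ∈ range n, nu j = ∑ j ∈ range n, lam j

theorem gt_dom (hx : x ∈ GTP n lam nu) : Dom n lam nu := by
  constructor
  · intro i hi
    rw [← gt_sum_eq' hx i hi.le]
    exact Finset.sum_le_sum fun j _ => gt_le_lam hx i j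
  · rw [← gt_sum_eq' hx n le_rfl]
    exact Finset.sum_congr rfl fun j _ => hx.2.1 n le_rfl j

theorem finite_GTP (n : ℕ) (lam nu : ℕ → ℕ) : (GTP n lam nu).Finite := by
  classical
  let φ : (ℕ → ℕ → ℕ) → (Fin n × Fin n → ℕ) := fun x p => x p.1 p.2
  have hinj : Set.InjOn φ (GTP n lam nu) := by
    intro x hx y hy h
    funext i j
    by_cases hi : i < n
    · by_cases hj : j < n
      · exact congrFun h (⟨i, hi⟩, ⟨j, hj⟩)
      · rw [gt_zero hx i hi.le j (by omega), gt_zero hy i hi.le j (by omega)]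
    · rw [hx.2.1 i (by omega) j, hy.2.1 i (by omega) j]
  apply Set.Finite.of_finite_image _ hinj
  have : {f : Fin n × Fin n → ℕ | ∀ p, f p ∈ Set.Iic (lam p.2)}.Finite :=
    Set.Finite.pi' fun _ => Set.finite_Iic _
  apply this.subset
  rintro _ ⟨x, hx, rfl⟩ p
  exact gt_le_lam hx _ _

/-- `kap` and its modifications are admissible second rows. -/
def Adm (n : ℕ) (lam nu kap : ℕ → ℕ) : Prop :=
  (∀ j, lam (j + 1) ≤ kap j ∧ kap j ≤ lam j) ∧ kap n = 0 ∧
    ∑ j ∈ range (n + 1), lam j = ∑ j ∈ range n, kap j + nu n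

theorem extend_mem {kap : ℕ → ℕ} (hk : Adm n lam nu kap) (hl : ∀ j, n + 1 ≤ j → lam j = 0)
    (hx : x ∈ GTP n kap nu) :
    (fun i j => if i ≤ n then x i j else lam j) ∈ GTP (n + 1) lam nu := by
  refine ⟨?_, ?_, ?_, ?_⟩
  · intro j
    simp [hx.1 j]
  · intro i hi j
    simp only
    rw [if_neg (by omega)]
  · intro i hi j
    simp only
    rw [if_pos (by omega : i ≤ n)]
    by_cases h : i + 1 ≤ n
    · rw [if_pos h]
      rw [if_pos h]
      exact hx.2.2.1 i (by omega) j
    · rw [if_neg h, if_neg h]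
      have : i = n := by omega
      subst this
      rw [hx.2.1 i le_rfl j]
      exact ⟨(hk.1 j).2, (hk.1 j).1⟩
  · intro i hi
    have e1 : ∀ j, (if i ≤ n then x i j else lam j) = x i j := fun j =>
      if_pos (by omega : i ≤ n)
    simp only [e1]
    by_cases h : i + 1 ≤ n
    · have e2 : ∀ j, (if i + 1 ≤ n then x (i + 1) j else lam j) = x (i + 1) j := fun j =>
        if_pos h
      simp only [e2]
      rw [Finset.sum_range_succ, Finset.sum_range_succ, hx.2.2.2 i (by omega),
        gt_zero hx (i + 1) h n h, gt_zero hx i (by omega) n (by omega), add_zero, add_zero]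
    · have e2 : ∀ j, (if i + 1 ≤ n then x (i + 1) j else lam j) = lam j := fun j =>
        if_neg h
      simp only [e2]
      have : i = n := by omega
      subst this
      rw [Finset.sum_range_succ (f := fun j => x i j), gt_zero hx i le_rfl i le_rfl, hk.2.2,
        add_zero]
      congr 1
      exact Finset.sum_congr rfl fun j _ => (hx.2.1 i le_rfl j).symm

theorem extend_inj {kap : ℕ → ℕ} : Set.InjOn
    (fun (x : ℕ → ℕ → ℕ) (i j : ℕ) => if i ≤ n then x i j else lam j) (GTP n kap nu) := by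
  intro x hx y hy h
  funext i j
  by_cases hi : i ≤ n
  · have := congrFun (congrFun h i) j
    simpa [hi] using this
  · rw [hx.2.1 i (by omega) j, hy.2.1 i (by omega) j]

theorem K_le_of_adm {kap : ℕ → ℕ} (hk : Adm n lam nu kap) (hl : ∀ j, n + 1 ≤ j → lam j = 0) :
    K n kap nu ≤ K (n + 1) lam nu := by
  unfold K
  rw [← Set.InjOn.ncard_image (extend_inj (n := n) (lam := lam) (nu := nu) (kap := kap))]
  apply Set.ncard_le_ncard _ (finite_GTP _ _ _)
  rintro _ ⟨x, hx, rfl⟩
  exact extend_mem hk hl hx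

theorem K_add_le_of_adm {kap kap' : ℕ → ℕ} (hk : Adm n lam nu kap) (hk' : Adm n lam nu kap')
    (hne : kap ≠ kap') (hl : ∀ j, n + 1 ≤ j → lam j = 0) :
    K n kap nu + K n kap' nu ≤ K (n + 1) lam nu := by
  unfold K
  rw [← Set.InjOn.ncard_image (extend_inj (n := n) (lam := lam) (nu := nu) (kap := kap)),
    ← Set.InjOn.ncard_image (extend_inj (n := n) (lam := lam) (nu := nu) (kap := kap')),
    ← Set.ncard_union_eq _ ((finite_GTP _ _ _).image _) ((finite_GTP _ _ _).image _)]
  · apply Set.ncard_le_ncard _ (finite_GTP _ _ _)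
    rintro _ (⟨x, hx, rfl⟩ | ⟨x, hx, rfl⟩)
    · exact extend_mem hk hl hx
    · exact extend_mem hk' hl hx
  · rw [Set.disjoint_left]
    rintro _ ⟨x, hx, rfl⟩ ⟨y, hy, h⟩
    apply hne
    funext j
    have := congrFun (congrFun h n) j
    simp only [le_refl, if_true] at this
    rw [hx.2.1 n le_rfl j, hy.2.1 n le_rfl j] at this
    exact this.symm

/-- the dominance-largest admissible row -/
def kapm (lam : ℕ → ℕ) (v : ℕ) : ℕ → ℕ := fun i => max (lam i) v + min (lam (i + 1)) v - v

theorem kapm_le {v : ℕ} (hl : Antitone lam) (j : ℕ) :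
    lam (j + 1) ≤ kapm lam v j ∧ kapm lam v j ≤ lam j := by
  have h := hl (Nat.le_succ j)
  simp only [Nat.succ_eq_add_one] at h
  unfold kapm
  omega

theorem psum_kapm {v : ℕ} (hl : Antitone lam) (h0 : v ≤ lam 0) (i : ℕ) :
    ∑ j ∈ range i, kapm lam v j + (v - lam i) = ∑ j ∈ range i, lam j := by
  induction i with
  | zero =>
    simp
    omega
  | succ i ih =>
    rw [Finset.sum_range_succ, Finset.sum_range_succ]
    have h := hl (Nat.le_succ i)
    simp only [Nat.succ_eq_add_one] at h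
    unfold kapm at *
    omega

theorem adm_kapm (hl : Antitone lam) (hlz : ∀ j, n + 1 ≤ j → lam j = 0)
    (h0 : nu n ≤ lam 0) (hn : lam n ≤ nu n) : Adm n lam nu (kapm lam (nu n)) := by
  refine ⟨kapm_le hl, ?_, ?_⟩
  · unfold kapm
    rw [hlz (n + 1) le_rfl]
    omega
  · have := psum_kapm hl h0 n
    rw [Finset.sum_range_succ]
    omega

/-- consequences of dominance for the last part -/
theorem Dom.last_le (hd : Dom (n + 1) lam nu) : lam n ≤ nu n := by
  have h1 := hd.2
  rw [Finset.sum_range_succ, Finset.sum_range_succ] at h1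
  have h2 := hd.1 n (Nat.lt_succ_self n)
  omega

theorem Dom.zero_le (hd : Dom (n + 1) lam nu) (hnu : Antitone nu) : nu n ≤ lam 0 := by
  have h0 : nu n ≤ nu 0 := hnu (Nat.zero_le n)
  rcases Nat.eq_zero_or_pos n with rfl | hn
  · have := hd.2
    simp at this
    omega
  · have h1 := hd.1 1 (by omega)
    simp at h1
    omega

theorem dom_kapm (hl : Antitone lam) (hnu : Antitone nu) (hd : Dom (n + 1) lam nu) :
    Dom n (kapm lam (nu n)) nu := by
  have h0 := hd.zero_le hnu
  have hn := hd.last_le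
  constructor
  · intro i hi
    have h1 := psum_kapm hl h0 i
    have h2 := hd.1 i (by omega)
    have h3 := hd.1 (i + 1) (by omega)
    rw [Finset.sum_range_succ, Finset.sum_range_succ] at h3
    have h4 : nu n ≤ nu i := hnu hi.le
    omega
  · have h1 := psum_kapm hl h0 n
    have h2 := hd.2
    rw [Finset.sum_range_succ, Finset.sum_range_succ] at h2
    omega

theorem antitone_kapm {v : ℕ} (hl : Antitone lam) : Antitone (kapm lam v) := by
  apply antitone_nat_of_succ_le
  intro i
  exact (kapm_le hl (i + 1)).2.trans (kapm_le hl i).1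

/-- Dominance implies that there is a pattern. -/
theorem one_le_K (n : ℕ) : ∀ (lam nu : ℕ → ℕ), Antitone lam → Antitone nu →
    (∀ j, n ≤ j → lam j = 0) → Dom n lam nu → 1 ≤ K n lam nu := by
  induction n with
  | zero =>
    intro lam nu hl hnu hz hd
    have : (fun _ _ => 0) ∈ GTP 0 lam nu := by
      refine ⟨fun _ => rfl, fun i _ j => (hz j (Nat.zero_le _)).symm, fun i hi => by omega,
        fun i hi => by omega⟩
    unfold K
    exact (Set.ncard_pos (finite_GTP _ _ _)).mpr ⟨_, this⟩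
  | succ n ih =>
    intro lam nu hl hnu hz hd
    have h0 := hd.zero_le hnu
    have hn := hd.last_le
    have hadm := adm_kapm (nu := nu) hl hz h0 hn
    refine le_trans (ih (kapm lam (nu n)) nu (antitone_kapm hl) hnu ?_ (dom_kapm hl hnu hd))
      (K_le_of_adm hadm hz)
    intro j hj
    have h1 := antitone_kapm (v := nu n) hl hj
    rw [hadm.2.1] at h1
    omega

end Pool.Agent.H634R3.KF
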