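import Pool.Agent.H634R3.Kostka.GT

set_option autoImplicit false

/-!
# The lower bound for primitive non-rigid pairs
-/

namespace Pool.Agent.H634R3.KF

open Finset

/-- strict dominance -/
def Prim (n : ℕ) (lam nu : ℕ → ℕ) : Prop :=
  (∀ i, 0 < i → i < n → ∑ j ∈ range i, nu j < ∑ j ∈ range i, lam j) ∧
    ∑ j ∈ range n, nu j = ∑ j ∈ range n, lam j

/-- non-rigid shapes -/
def NR (n : ℕ) (lam : ℕ → ℕ) : Prop := lam 1 ≠ lam (n - 1) ∧ lam 0 ≠ lam (n - 2)

theorem Prim.dom {n : ℕ} {lam nu : ℕ → ℕ} (h : Prim n lam nu) : Dom n lam nu := by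
  refine ⟨fun i hi => ?_, h.2⟩
  rcases Nat.eq_zero_or_pos i with rfl | h0
  · simp
  · exact (h.1 i h0 hi).le

theorem Prim.last_lt {n : ℕ} {lam nu : ℕ → ℕ} (h : Prim (n + 1) lam nu) (hn : 1 ≤ n) :
    lam n < nu n := by
  have h1 := h.2
  rw [Finset.sum_range_succ, Finset.sum_range_succ] at h1
  have h2 := h.1 n hn (Nat.lt_succ_self n)
  omega

theorem Prim.lt_zero {n : ℕ} {lam nu : ℕ → ℕ} (h : Prim (n + 1) lam nu) (hn : 1 ≤ n) :
    nu 0 < lam 0 := by
  have h1 := h.1 1 (by omega) (by omega)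
  simpa using h1

theorem prim_kapm {n : ℕ} {lam nu : ℕ → ℕ} (hl : Antitone lam) (hnu : Antitone nu)
    (hd : Prim (n + 1) lam nu) : Prim n (kapm lam (nu n)) nu := by
  have h0 := hd.dom.zero_le hnu
  refine ⟨?_, (dom_kapm hl hnu hd.dom).2⟩
  intro i hi0 hi
  have h1 := psum_kapm hl h0 i
  have h2 := hd.1 i hi0 (by omega)
  have h3 := hd.1 (i + 1) (by omega) (by omega)
  rw [Finset.sum_range_succ, Finset.sum_range_succ] at h3
  have h4 : nu n ≤ nu i := hnu hi.le
  omega

theorem exists_step {f : ℕ → ℕ} (hf : Antitone f) {a b : ℕ} (hab : a ≤ b) (hne : f a ≠ f b) :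
    ∃ s, a ≤ s ∧ s < b ∧ f (s + 1) < f s := by
  by_contra h
  push Not at h
  apply hne
  obtain ⟨d, rfl⟩ := Nat.exists_eq_add_of_le hab
  clear hab hne
  induction d with
  | zero => rfl
  | succ d ih =>
    have h1 := h (a + d) (by omega) (by omega)
    have h2 := hf (Nat.le_succ (a + d))
    simp only [Nat.succ_eq_add_one] at h2
    have h3 := ih (fun s hs hs' => h s hs (by omega))
    have h4 : f (a + (d + 1)) = f (a + d + 1) := rfl
    omega

/-- moving one unit from index `i` to index `j` -/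
def mdf (kap : ℕ → ℕ) (i j : ℕ) : ℕ → ℕ :=
  fun s => if s = i then kap i - 1 else if s = j then kap j + 1 else kap s

theorem psum_mdf {kap : ℕ → ℕ} {i j : ℕ} (hij : i < j) (h1 : 1 ≤ kap i) (s : ℕ) :
    ∑ t ∈ range s, mdf kap i j t + (if i < s ∧ s ≤ j then 1 else 0) = ∑ t ∈ range s, kap t := by
  induction s with
  | zero => simp
  | succ s ih =>
    rw [Finset.sum_range_succ, Finset.sum_range_succ]
    unfold mdf at *
    by_cases e1 : s = i
    · subst e1
      rw [if_pos rfl, if_pos ⟨Nat.lt_succ_self s, hij⟩]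
      rw [if_neg (by omega)] at ih
      omega
    · rw [if_neg e1]
      by_cases e2 : s = j
      · subst e2
        rw [if_pos rfl, if_neg (by omega)]
        rw [if_pos ⟨hij, le_rfl⟩] at ih
        omega
      · rw [if_neg e2]
        by_cases e3 : i < s ∧ s ≤ j
        · rw [if_pos (by omega)]
          rw [if_pos e3] at ih
          omega
        · rw [if_neg (by omega)]
          rw [if_neg e3] at ih
          omega

theorem adm_mdf {n : ℕ} {lam nu kap : ℕ → ℕ} (hk : Adm n lam nu kap) {i j : ℕ} (hij : i < j)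
    (hj : j < n) (hi1 : lam (i + 1) < kap i) (hj1 : kap j < lam j) :
    Adm n lam nu (mdf kap i j) := by
  refine ⟨?_, ?_, ?_⟩
  · intro s
    have h := hk.1 s
    unfold mdf
    split_ifs with e1 e2
    · subst e1; omega
    · subst e2; omega
    · exact h
  · unfold mdf
    rw [if_neg (by omega), if_neg (by omega)]
    exact hk.2.1
  · have h1 := psum_mdf (kap := kap) hij (by omega) n
    rw [if_neg (by omega)] at h1
    rw [hk.2.2, ← h1, add_zero]

theorem dom_mdf {n : ℕ} {nu kap : ℕ → ℕ} (hp : Prim n kap nu) {i j : ℕ} (hij : i < j)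
    (hj : j < n) (hi1 : 1 ≤ kap i) : Dom n (mdf kap i j) nu := by
  constructor
  · intro s hs
    have h1 := psum_mdf (kap := kap) hij hi1 s
    rcases Nat.eq_zero_or_pos s with rfl | h0
    · simp
    · have h2 := hp.1 s h0 hs
      split_ifs at h1 <;> omega
  · have h1 := psum_mdf (kap := kap) hij hi1 n
    rw [if_neg (by omega)] at h1
    rw [hp.2, ← h1, add_zero]

theorem adm_antitone {n : ℕ} {lam nu kap : ℕ → ℕ} (hk : Adm n lam nu kap) : Antitone kap :=
  antitone_nat_of_succ_le fun i => ((hk.1 (i + 1)).2).trans (hk.1 i).1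

theorem adm_zero {n : ℕ} {lam nu kap : ℕ → ℕ} (hk : Adm n lam nu kap) :
    ∀ j, n ≤ j → kap j = 0 := by
  intro j hj
  have h1 := adm_antitone hk hj
  rw [hk.2.1] at h1
  omega

theorem mdf_ne {kap : ℕ → ℕ} {i j : ℕ} (h1 : 1 ≤ kap i) : kap ≠ mdf kap i j := by
  intro h
  have := congrFun h i
  unfold mdf at this
  rw [if_pos rfl] at this
  omega

/-- existence of a second admissible row -/
theorem exists_mdf {n : ℕ} {lam nu : ℕ → ℕ} (hl : Antitone lam)
    (hlast : lam n < nu n) (hfirst : nu n < lam 0)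
    (h3 : ∃ s, s < n + 1 ∧ lam s ≠ lam 0 ∧ lam s ≠ lam n) :
    ∃ i j, i < j ∧ j < n ∧ lam (i + 1) < kapm lam (nu n) i ∧ kapm lam (nu n) j < lam j := by
  classical
  -- the index where `lam` crosses `nu n`
  have hex : ∃ t, lam (t + 1) ≤ nu n := ⟨n, (hl (Nat.le_succ n)).trans hlast.le⟩
  let t := Nat.find hex
  have ht : lam (t + 1) ≤ nu n := Nat.find_spec hex
  have htmin : ∀ s, s < t → nu n < lam (s + 1) := fun s hs => by
    have := Nat.find_min hex hs
    omega
  have ht' : nu n < lam t := by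
    rcases Nat.eq_zero_or_pos t with h0 | h0
    · rw [h0]; exact hfirst
    · have := htmin (t - 1) (by omega)
      rwa [Nat.sub_add_cancel h0] at this
  have htn : t < n := by
    by_contra h
    have := hl (not_lt.mp h)
    omega
  by_cases hc : lam (t + 1) = lam n
  · have hlt : lam t ≠ lam 0 := by
      intro he
      obtain ⟨s, hs, hs0, hsn⟩ := h3
      rcases Nat.lt_or_ge t s with h | h
      · have h1 := hl (show t + 1 ≤ s from h)
        have h2 := hl (show s ≤ n by omega)
        omega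
      · have h1 := hl h
        have h2 := hl (Nat.zero_le s)
        omega
    obtain ⟨s, _, hs, hstep⟩ := exists_step hl (Nat.zero_le t) (Ne.symm hlt)
    refine ⟨s, t, hs, htn, ?_, ?_⟩
    · have h1 := htmin s hs
      unfold kapm
      omega
    · unfold kapm
      omega
  · obtain ⟨s, hs1, hs2, hstep⟩ := exists_step hl (show t + 1 ≤ n from htn) hc
    refine ⟨t, s, by omega, hs2, ?_, ?_⟩
    · unfold kapm
      omega
    · have h1 := hl hs1
      unfold kapm
      omega

theorem sum_ge {f : ℕ → ℕ} {n c : ℕ} (hn : 1 ≤ n) (hc : ∀ j, j < n → c ≤ f j) :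
    f 0 + (n - 1) * c ≤ ∑ j ∈ range n, f j := by
  obtain ⟨m, rfl⟩ : ∃ m, n = m + 1 := ⟨n - 1, by omega⟩
  rw [Finset.sum_range_succ', Nat.add_sub_cancel]
  have : ∑ j ∈ range m, c ≤ ∑ j ∈ range m, f (j + 1) :=
    Finset.sum_le_sum fun j hj => hc (j + 1) (by have := Finset.mem_range.mp hj; omega)
  rw [Finset.sum_const, Finset.card_range, smul_eq_mul] at this
  omega

theorem sum_le' {f : ℕ → ℕ} {n c : ℕ} (hc : ∀ j, j < n → f j ≤ c) :
    ∑ j ∈ range n, f j ≤ n * c := by
  have : ∑ j ∈ range n, f j ≤ ∑ j ∈ range n, c :=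
    Finset.sum_le_sum fun j hj => hc j (Finset.mem_range.mp hj)
  rwa [Finset.sum_const, Finset.card_range, smul_eq_mul] at this

end Pool.Agent.H634R3.KF
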