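import Pool.Agent.H634R3.Kostka.LB

set_option autoImplicit false

/-!
# The lower bound for primitive non-rigid pairs: the induction
-/

namespace Pool.Agent.H634R3.KF

open Finset

/-- two admissible rows -/
theorem K_two {n : ℕ} {lam nu : ℕ → ℕ} (hl : Antitone lam) (hnu : Antitone nu) (hn : 1 ≤ n)
    (hz : ∀ j, n + 1 ≤ j → lam j = 0) (hp : Prim (n + 1) lam nu)
    (h3 : ∃ s, s < n + 1 ∧ lam s ≠ lam 0 ∧ lam s ≠ lam n) :
    K n (kapm lam (nu n)) nu + 1 ≤ K (n + 1) lam nu := by
  have hlast := hp.last_lt hn
  have hfirst : nu n < lam 0 := lt_of_le_of_lt (hnu (Nat.zero_le n)) (hp.lt_zero hn)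
  obtain ⟨i, j, hij, hj, hi1, hj1⟩ := exists_mdf hl hlast hfirst h3
  have hadm := adm_kapm (nu := nu) hl hz hfirst.le hlast.le
  have hpk := prim_kapm hl hnu hp
  have hadm' := adm_mdf hadm hij hj hi1 hj1
  have hdom' := dom_mdf hpk hij hj (i := i) (j := j) (by omega)
  have h1 := K_add_le_of_adm hadm hadm' (mdf_ne (by omega)) hz
  have h2 := one_le_K n _ nu (adm_antitone hadm') hnu (adm_zero hadm') hdom'
  omega

theorem K_two' {n : ℕ} {lam nu : ℕ → ℕ} (hl : Antitone lam) (hnu : Antitone nu) (hn : 1 ≤ n)
    (hz : ∀ j, n + 1 ≤ j → lam j = 0) (hp : Prim (n + 1) lam nu) {i j : ℕ} (hij : i < j)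
    (hj : j < n) (hi1 : lam (i + 1) < kapm lam (nu n) i) (hj1 : kapm lam (nu n) j < lam j) :
    K n (mdf (kapm lam (nu n)) i j) nu + 1 ≤ K (n + 1) lam nu := by
  have hlast := hp.last_lt hn
  have hfirst : nu n < lam 0 := lt_of_le_of_lt (hnu (Nat.zero_le n)) (hp.lt_zero hn)
  have hadm := adm_kapm (nu := nu) hl hz hfirst.le hlast.le
  have hpk := prim_kapm hl hnu hp
  have hadm' := adm_mdf hadm hij hj hi1 hj1
  have h1 := K_add_le_of_adm hadm hadm' (mdf_ne (by omega)) hz
  have h2 := one_le_K n _ nu (adm_antitone hadm) hnu (adm_zero hadm) hpk.dom
  omega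

theorem prim_mdf {n : ℕ} {nu kap : ℕ → ℕ} (hp : Prim n kap nu) {i j : ℕ} (hij : i < j)
    (hj : j < n) (hi1 : 1 ≤ kap i)
    (h : ∀ s, i < s → s ≤ j → ∑ t ∈ range s, nu t + 1 < ∑ t ∈ range s, kap t) :
    Prim n (mdf kap i j) nu := by
  refine ⟨?_, (dom_mdf hp hij hj hi1).2⟩
  intro s h0 hs
  have h1 := psum_mdf (kap := kap) hij hi1 s
  have h2 := hp.1 s h0 hs
  split_ifs at h1 with h3
  · have := h s h3.1 h3.2
    omega
  · omega

theorem kap_hi {lam : ℕ → ℕ} {v i : ℕ} (hl : Antitone lam) (h : v ≤ lam (i + 1)) :
    kapm lam v i = lam i := by
  have := hl (Nat.le_succ i)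
  simp only [Nat.succ_eq_add_one] at this
  unfold kapm
  rw [max_eq_left (by omega), min_eq_right h]
  omega

theorem kap_mid {lam : ℕ → ℕ} {v i : ℕ} (h1 : lam (i + 1) ≤ v) (h2 : v ≤ lam i) :
    kapm lam v i = lam i + lam (i + 1) - v := by
  unfold kapm
  rw [max_eq_left h2, min_eq_left h1]

theorem kap_lo {lam : ℕ → ℕ} {v i : ℕ} (hl : Antitone lam) (h : lam i ≤ v) :
    kapm lam v i = lam (i + 1) := by
  have := hl (Nat.le_succ i)
  simp only [Nat.succ_eq_add_one] at this
  unfold kapm
  rw [max_eq_right h, min_eq_left (by omega)]
  omega

/-- the two cases in which the largest admissible row is rigid -/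
theorem rigid_cases {n : ℕ} {lam : ℕ → ℕ} {v : ℕ} (hl : Antitone lam) (hn : 3 ≤ n)
    (hlast : lam n < v) (hfirst : v < lam 0) (hkr : ¬ NR n (kapm lam v)) :
    (lam 1 ≤ v ∧ lam 2 = lam n) ∨ (lam 0 = lam (n - 2) ∧ v ≤ lam (n - 1)) := by
  have hka : Antitone (kapm lam v) := antitone_kapm hl
  unfold NR at hkr
  by_cases hA : kapm lam v 1 = kapm lam v (n - 1)
  · left
    have a1 := (kapm_le (v := v) hl 1).1
    have an := (kapm_le (v := v) hl (n - 1)).2
    have m2 := hl (show 2 ≤ n - 1 by omega)
    have m4 := hl (show n - 1 ≤ n by omega)
    have m12 := hl (show 1 ≤ 2 by norm_num)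
    have e0 : lam (1 + 1) = lam 2 := rfl
    rw [e0] at a1
    have e1 : kapm lam v 1 = lam 2 := by omega
    have e2 : kapm lam v (n - 1) = lam (n - 1) := by omega
    have e3 : lam (n - 1) ≤ v := by
      by_contra h
      have h' : v < lam (n - 1) := by omega
      have := kap_mid (lam := lam) (v := v) (i := n - 1)
        (by rw [show n - 1 + 1 = n by omega]; omega) h'.le
      rw [show n - 1 + 1 = n by omega] at this
      omega
    have e4 : kapm lam v (n - 1) = lam n := by
      have := kap_lo (v := v) hl e3
      rwa [show n - 1 + 1 = n by omega] at this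
    have e5 : lam 2 = lam n := by omega
    refine ⟨?_, e5⟩
    by_contra h
    have := kap_mid (lam := lam) (v := v) (i := 1) (by rw [e0]; omega) (by omega)
    rw [e0] at this
    omega
  · right
    have hB : kapm lam v 0 = kapm lam v (n - 2) := by
      by_contra hB
      exact hkr ⟨hA, hB⟩
    have a0 := (kapm_le (v := v) hl 0).1
    have an := (kapm_le (v := v) hl (n - 2)).2
    have m1 := hl (show 1 ≤ n - 2 by omega)
    have m01 := hl (show 0 ≤ 1 by norm_num)
    rw [Nat.zero_add] at a0
    have e1 : kapm lam v 0 = lam 1 := by omega
    have e2 : kapm lam v (n - 2) = lam (n - 2) := by omega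
    have e3 : v ≤ lam 1 := by
      by_contra h
      have := kap_mid (lam := lam) (v := v) (i := 0) (by rw [Nat.zero_add]; omega) hfirst.le
      rw [Nat.zero_add] at this
      omega
    have e4 : kapm lam v 0 = lam 0 := kap_hi hl (by rw [Nat.zero_add]; exact e3)
    refine ⟨by omega, ?_⟩
    by_contra h
    have := kap_mid (lam := lam) (v := v) (i := n - 2)
      (by rw [show n - 2 + 1 = n - 1 by omega]; omega) (by omega)
    rw [show n - 2 + 1 = n - 1 by omega] at this
    omega

/-- The key lower bound. -/
theorem LBmain (n : ℕ) (hn3 : 3 ≤ n) : ∀ (lam nu : ℕ → ℕ), Antitone lam → Antitone nu →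
    (∀ j, n ≤ j → lam j = 0) → Prim n lam nu → NR n lam →
    n ≤ 2 * K n lam nu ∧
      ((∃ s, s < n ∧ lam s ≠ lam 0 ∧ lam s ≠ lam (n - 1)) → n + 1 ≤ 2 * K n lam nu) := by
  induction n, hn3 using Nat.le_induction with
  | base =>
    intro lam nu hl hnu hz hp hr
    have h1 := K_two hl hnu (by norm_num) hz hp ⟨1, by norm_num, hr.2.symm, hr.1⟩
    have hlast := hp.last_lt (by norm_num)
    have hfirst : nu 2 < lam 0 := lt_of_le_of_lt (hnu (Nat.zero_le 2)) (hp.lt_zero (by norm_num))
    have hadm := adm_kapm (nu := nu) hl hz hfirst.le hlast.le
    have hpk := prim_kapm hl hnu hp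
    have h2 := one_le_K 2 _ nu (adm_antitone hadm) hnu (adm_zero hadm) hpk.dom
    have h3 : K (2 + 1) lam nu = K 3 lam nu := rfl
    omega
  | succ n hn ih =>
    intro lam nu hl hnu hz hp hr
    have hn1 : 1 ≤ n := by omega
    have hlast := hp.last_lt hn1
    have h0 := hp.lt_zero hn1
    have hfirst : nu n < lam 0 := lt_of_le_of_lt (hnu (Nat.zero_le n)) h0
    have hadm := adm_kapm (nu := nu) hl hz hfirst.le hlast.le
    have hpk := prim_kapm hl hnu hp
    have hka := adm_antitone hadm
    have hkz := adm_zero hadm
    obtain ⟨hr1, hr2⟩ := hr
    rw [Nat.add_sub_cancel] at hr1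
    have e2 : n + 1 - 2 = n - 1 := by omega
    rw [e2] at hr2
    rw [Nat.add_sub_cancel]
    by_cases h3 : ∃ s, s < n + 1 ∧ lam s ≠ lam 0 ∧ lam s ≠ lam n
    · -- at least three values
      suffices h : n + 1 + 1 ≤ 2 * K (n + 1) lam nu from ⟨by omega, fun _ => h⟩
      by_cases hkr : NR n (kapm lam (nu n))
      · have h1 := K_two hl hnu hn1 hz hp h3
        have h2 := (ih _ nu hka hnu hkz hpk hkr).1
        omega
      · -- the two exceptional cases
        have hcase := rigid_cases hl hn hlast hfirst hkr
        rcases hcase with ⟨c1, c2⟩ | ⟨c1, c2⟩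
        · -- two-row type
          have kv0 : kapm lam (nu n) 0 = lam 0 + lam 1 - nu n :=
            kap_mid (by rw [Nat.zero_add]; exact c1) hfirst.le
          have kv1 : kapm lam (nu n) 1 = lam 2 := kap_lo hl c1
          have m12 := hl (show 1 ≤ 2 by norm_num)
          have hi1 : lam (0 + 1) < kapm lam (nu n) 0 := by
            rw [Nat.zero_add]; omega
          have hj1 : kapm lam (nu n) 1 < lam 1 := by omega
          have hK := K_two' hl hnu hn1 hz hp (i := 0) (j := 1) (by norm_num) (by omega) hi1 hj1
          have hadm' := adm_mdf hadm (i := 0) (j := 1) (by norm_num) (by omega) hi1 hj1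
          have hconst : ∀ s, 1 ≤ s → s < n → kapm lam (nu n) s = lam n := by
            intro s hs1 hs2
            have e1 := hl hs1
            have e3 := hl (show 2 ≤ s + 1 by omega)
            have e4 := hl (show s + 1 ≤ n by omega)
            rw [kap_lo hl (by omega)]
            omega
          have hpr : Prim n (mdf (kapm lam (nu n)) 0 1) nu := by
            apply prim_mdf hpk (by norm_num) (by omega) (by omega)
            intro s hs1 hs2
            have : s = 1 := by omega
            subst this
            simp only [Finset.sum_range_one]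
            -- compare the total sums
            have t1 := hpk.2
            have t2 : ∑ j ∈ range n, kapm lam (nu n) j =
                kapm lam (nu n) 0 + (n - 1) * lam n := by
              obtain ⟨m, rfl⟩ : ∃ m, n = m + 1 := ⟨n - 1, by omega⟩
              rw [Finset.sum_range_succ', Nat.add_sub_cancel,
                Finset.sum_congr rfl (fun j hj => hconst (j + 1) (by omega)
                  (by have := Finset.mem_range.mp hj; omega))]
              rw [Finset.sum_const, Finset.card_range, smul_eq_mul, add_comm]
            have t3 := sum_ge (f := nu) (n := n) (c := lam n + 1) hn1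
              (fun j hj => by have := hnu hj.le; omega)
            have t4 : (n - 1) * (lam n + 1) = (n - 1) * lam n + (n - 1) := by ring
            omega
          have hnr : NR n (mdf (kapm lam (nu n)) 0 1) := by
            have hp1 := hpr.1 1 (by norm_num) (by omega)
            simp only [Finset.sum_range_one] at hp1
            have e0 : mdf (kapm lam (nu n)) 0 1 0 = kapm lam (nu n) 0 - 1 := by simp [mdf]
            have e1 : mdf (kapm lam (nu n)) 0 1 1 = kapm lam (nu n) 1 + 1 := by simp [mdf]
            have en : mdf (kapm lam (nu n)) 0 1 (n - 1) = lam n := by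
              unfold mdf
              rw [if_neg (by omega), if_neg (by omega)]
              exact hconst _ (by omega) (by omega)
            have h1 := hconst 1 (by omega) (by omega)
            refine ⟨by omega, ?_⟩
            by_cases hn3 : n = 3
            · subst hn3
              have hh : mdf (kapm lam (nu 3)) 0 1 (3 - 2) = mdf (kapm lam (nu 3)) 0 1 1 := rfl
              rw [hh]
              have := hnu (Nat.zero_le 3)
              omega
            · have en2 : mdf (kapm lam (nu n)) 0 1 (n - 2) = lam n := by
                unfold mdf
                rw [if_neg (by omega), if_neg (by omega)]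
                exact hconst _ (by omega) (by omega)
              have := hnu (Nat.zero_le n)
              omega
          have h2 := (ih _ nu (adm_antitone hadm') hnu (adm_zero hadm') hpr hnr).1
          omega
        · -- dual two-row type
          have m3 := hl (show n - 2 ≤ n - 1 by omega)
          have kvn2 : kapm lam (nu n) (n - 2) = lam (n - 2) :=
            kap_hi hl (by rw [show n - 2 + 1 = n - 1 by omega]; exact c2)
          have kvn1 : kapm lam (nu n) (n - 1) = lam (n - 1) + lam n - nu n := by
            have := kap_mid (lam := lam) (v := nu n) (i := n - 1)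
              (by rw [show n - 1 + 1 = n by omega]; exact hlast.le) c2
            rwa [show n - 1 + 1 = n by omega] at this
          have hi1 : lam (n - 2 + 1) < kapm lam (nu n) (n - 2) := by
            rw [show n - 2 + 1 = n - 1 by omega]; omega
          have hj1 : kapm lam (nu n) (n - 1) < lam (n - 1) := by omega
          have hK := K_two' hl hnu hn1 hz hp (i := n - 2) (j := n - 1) (by omega) (by omega)
            hi1 hj1
          have hadm' := adm_mdf hadm (i := n - 2) (j := n - 1) (by omega) (by omega) hi1 hj1
          have hconst : ∀ s, s ≤ n - 2 → kapm lam (nu n) s = lam 0 := by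
            intro s hs2
            have e1 := hl hs2
            have e3 := hl (Nat.zero_le s)
            have e4 := hl (show s + 1 ≤ n - 1 by omega)
            rw [kap_hi hl (by omega)]
            omega
          have tsum : ∑ j ∈ range (n - 1), kapm lam (nu n) j = (n - 1) * lam 0 := by
            rw [Finset.sum_congr rfl (fun j hj => hconst j
                (by have := Finset.mem_range.mp hj; omega))]
            rw [Finset.sum_const, Finset.card_range, smul_eq_mul]
          have t3 : ∀ k, k ≤ n → ∑ j ∈ range k, nu j + k ≤ k * lam 0 := by
            intro k hk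
            have := sum_le' (f := fun j => nu j + 1) (n := k) (c := lam 0)
              (fun j hj => by have := hnu (Nat.zero_le j); omega)
            rw [Finset.sum_add_distrib, Finset.sum_const, Finset.card_range, smul_eq_mul,
              mul_one] at this
            exact this
          have hpr : Prim n (mdf (kapm lam (nu n)) (n - 2) (n - 1)) nu := by
            apply prim_mdf hpk (by omega) (by omega) (by omega)
            intro s hs1 hs2
            have : s = n - 1 := by omega
            subst this
            have := t3 (n - 1) (by omega)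
            omega
          have hnr : NR n (mdf (kapm lam (nu n)) (n - 2) (n - 1)) := by
            have e0 : mdf (kapm lam (nu n)) (n - 2) (n - 1) 0 = lam 0 := by
              unfold mdf
              rw [if_neg (by omega), if_neg (by omega)]
              exact hconst _ (by omega)
            have en2 : mdf (kapm lam (nu n)) (n - 2) (n - 1) (n - 2) = lam 0 - 1 := by
              unfold mdf
              rw [if_pos rfl, hconst _ le_rfl]
            have en1 : mdf (kapm lam (nu n)) (n - 2) (n - 1) (n - 1) =
                kapm lam (nu n) (n - 1) + 1 := by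
              unfold mdf
              rw [if_neg (by omega), if_pos rfl]
            have t1 := hpk.2
            have t2 : ∑ j ∈ range n, kapm lam (nu n) j =
                (n - 1) * lam 0 + kapm lam (nu n) (n - 1) := by
              rw [← tsum]
              have := Finset.sum_range_succ (fun j => kapm lam (nu n) j) (n - 1)
              rwa [show n - 1 + 1 = n by omega] at this
            have t4 := t3 n le_rfl
            have t5 : n * lam 0 = (n - 1) * lam 0 + lam 0 := by
              conv_lhs => rw [show n = (n - 1) + 1 by omega]
              ring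
            refine ⟨?_, by omega⟩
            by_cases hn3 : n = 3
            · subst hn3
              have hh : mdf (kapm lam (nu 3)) (3 - 2) (3 - 1) 1 =
                mdf (kapm lam (nu 3)) (3 - 2) (3 - 1) (3 - 2) := rfl
              omega
            · have e1 : mdf (kapm lam (nu n)) (n - 2) (n - 1) 1 = lam 0 := by
                unfold mdf
                rw [if_neg (by omega), if_neg (by omega)]
                exact hconst _ (by omega)
              omega
          have h2 := (ih _ nu (adm_antitone hadm') hnu (adm_zero hadm') hpr hnr).1
          omega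
    · -- exactly two values
      refine ⟨?_, fun h => absurd h h3⟩
      push Not at h3
      have l1 : lam 1 = lam 0 := by
        by_contra h
        exact hr1 (h3 1 (by omega) h)
      have ln1 : lam (n - 1) = lam n := h3 (n - 1) (by omega) (Ne.symm hr2)
      -- the place of the jump
      obtain ⟨t, _, htn, hstep⟩ := exists_step hl (Nat.zero_le n)
        (show lam 0 ≠ lam n by omega)
      have ht0 : lam t = lam 0 := by
        by_contra h
        have := h3 t (by omega) h
        have := hl (show t + 1 ≤ n from htn)
        omega
      have ht1 : lam (t + 1) = lam n := h3 (t + 1) (by omega) (by omega)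
      have ht1' : 1 ≤ t := by
        by_contra h
        have : t = 0 := by omega
        subst this
        rw [Nat.zero_add] at hstep
        omega
      have htn' : t + 1 < n := by
        by_contra h
        have : t = n - 1 := by omega
        subst this
        omega
      have hlow : ∀ s, s ≤ t → lam s = lam 0 := fun s hs => by
        have e1 := hl hs
        have e2 := hl (Nat.zero_le s)
        omega
      have hhigh : ∀ s, t + 1 ≤ s → s ≤ n → lam s = lam n := fun s hs hs' => by
        have e1 := hl hs
        have e2 := hl hs'
        omega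
      have klow : ∀ s, s < t → kapm lam (nu n) s = lam 0 := by
        intro s hs
        have e1 := hlow s hs.le
        have e2 := hlow (s + 1) hs
        rw [kap_hi hl (by omega)]
        exact e1
      have khigh : ∀ s, t < s → s < n → kapm lam (nu n) s = lam n := by
        intro s hs hs'
        have e1 := hhigh s hs hs'.le
        have e2 := hhigh (s + 1) (by omega) (by omega)
        rw [kap_lo hl (by omega)]
        exact e2
      have kt : kapm lam (nu n) t = lam 0 + lam n - nu n := by
        rw [kap_mid (by omega) (by omega), ht0, ht1]
      have kk0 := klow 0 (by omega)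
      have kkn := khigh (n - 1) (by omega) (by omega)
      have hkr : NR n (kapm lam (nu n)) := by
        constructor
        · by_cases h : t = 1
          · subst h; omega
          · have := klow 1 (by omega)
            omega
        · by_cases h : t = n - 2
          · subst h; omega
          · have := khigh (n - 2) (by omega) (by omega)
            omega
      have h2 := (ih _ nu hka hnu hkz hpk hkr).2 ⟨t, by omega, by omega, by omega⟩
      have h4 := K_le_of_adm hadm hz
      omega

end Pool.Agent.H634R3.KF
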