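import Pool.Agent.H634R3.Kostka.GT
import Pool.Agent.H634R3.Kostka.Dickson

set_option autoImplicit false

/-!
# Gelfand–Tsetlin patterns as integer points of a polyhedron
-/

namespace Pool.Agent.H634R3.KF

open Finset

/-- the coordinate `x_{i,j}` (row `0` is zero) -/
def E (n : ℕ) (i j : ℕ) : (Fin n × Fin n → ℤ) →+ ℤ :=
  if h : i - 1 < n ∧ j < n ∧ 0 < i then
    Pi.evalAddMonoidHom (fun _ : Fin n × Fin n => ℤ) (⟨i - 1, h.1⟩, ⟨j, h.2.1⟩) else 0

/-- the linear forms -/
def MM (n : ℕ) : Fin 6 × Fin n × Fin n → (Fin n × Fin n → ℤ) →+ ℤ := fun q =>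
  if q.1 = 0 then E n q.2.1 q.2.2 - E n (q.2.1 + 1) q.2.2
  else if q.1 = 1 then E n (q.2.1 + 1) (q.2.2 + 1) - E n q.2.1 q.2.2
  else if q.1 = 2 then ∑ j ∈ range n, E n (q.2.1 + 1) j - ∑ j ∈ range n, E n q.2.1 j
  else if q.1 = 3 then -(∑ j ∈ range n, E n (q.2.1 + 1) j - ∑ j ∈ range n, E n q.2.1 j)
  else if q.1 = 4 then E n n q.2.2
  else -E n n q.2.2

/-- the right-hand sides -/
def bb (n : ℕ) (lam nu : ℕ → ℕ) : Fin 6 × Fin n × Fin n → ℤ := fun q =>
  if q.1 = 0 then 0
  else if q.1 = 1 then 0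
  else if q.1 = 2 then nu q.2.1
  else if q.1 = 3 then -(nu q.2.1 : ℤ)
  else if q.1 = 4 then lam q.2.2
  else -(lam q.2.2 : ℤ)

/-- the coordinates of a pattern -/
def code (n : ℕ) (x : ℕ → ℕ → ℕ) : Fin n × Fin n → ℤ := fun p => (x (p.1 + 1) p.2 : ℤ)

variable {n : ℕ} {lam nu : ℕ → ℕ}

theorem E_code {x : ℕ → ℕ → ℕ} (h0 : ∀ j, x 0 j = 0) {i j : ℕ} (hi : i ≤ n) (hj : j < n) :
    E n i j (code n x) = x i j := by
  unfold E
  rcases Nat.eq_zero_or_pos i with rfl | hi0
  · rw [dif_neg (by omega), h0]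
    simp
  · rw [dif_pos ⟨by omega, hj, hi0⟩]
    simp only [Pi.evalAddMonoidHom_apply, code]
    rw [Nat.sub_add_cancel hi0]

theorem E_out {i j : ℕ} (hj : n ≤ j) (y : Fin n × Fin n → ℤ) : E n i j y = 0 := by
  unfold E
  rw [dif_neg (by omega)]
  rfl

theorem E_zero {j : ℕ} (y : Fin n × Fin n → ℤ) : E n 0 j y = 0 := by
  unfold E
  rw [dif_neg (by omega)]
  rfl

theorem E_apply {y : Fin n × Fin n → ℤ} (p : Fin n × Fin n) :
    E n (p.1 + 1) p.2 y = y p := by
  unfold E
  rw [dif_pos ⟨by simp, p.2.2, Nat.succ_pos _⟩]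
  simp

theorem mem_iff {y : Fin n × Fin n → ℤ} : y ∈ P (MM n) (bb n lam nu) ↔
    (∀ i j, i < n → j < n → E n i j y ≤ E n (i + 1) j y) ∧
    (∀ i j, i < n → j < n → E n (i + 1) (j + 1) y ≤ E n i j y) ∧
    (∀ i, i < n → ∑ j ∈ range n, E n (i + 1) j y = ∑ j ∈ range n, E n i j y + nu i) ∧
    (∀ j, j < n → E n n j y = lam j) := by
  constructor
  · intro h
    refine ⟨?_, ?_, ?_, ?_⟩
    · intro i j hi hj
      have := h (0, ⟨i, hi⟩, ⟨j, hj⟩)
      simp [MM, bb] at this
      exact this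
    · intro i j hi hj
      have := h (1, ⟨i, hi⟩, ⟨j, hj⟩)
      simp [MM, bb] at this
      exact this
    · intro i hi
      have h1 := h (2, ⟨i, hi⟩, ⟨i, hi⟩)
      have h2 := h (3, ⟨i, hi⟩, ⟨i, hi⟩)
      simp [MM, bb] at h1 h2
      linarith
    · intro j hj
      have h1 := h (4, ⟨j, hj⟩, ⟨j, hj⟩)
      have h2 := h (5, ⟨j, hj⟩, ⟨j, hj⟩)
      simp [MM, bb] at h1 h2
      linarith
  · rintro ⟨h0, h1, h2, h3⟩ ⟨t, i, j⟩
    fin_cases t
    · have := h0 i j i.2 j.2
      simp [MM, bb]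
      exact this
    · have := h1 i j i.2 j.2
      simp [MM, bb]
      exact this
    · have := h2 i i.2
      simp [MM, bb]
      linarith
    · have := h2 i i.2
      simp [MM, bb]
      linarith
    · have := h3 j j.2
      simp [MM, bb]
      linarith
    · have := h3 j j.2
      simp [MM, bb]
      linarith

theorem code_mem {x : ℕ → ℕ → ℕ} (hx : x ∈ GTP n lam nu) :
    code n x ∈ P (MM n) (bb n lam nu) := by
  rw [mem_iff]
  refine ⟨?_, ?_, ?_, ?_⟩
  · intro i j hi hj
    rw [E_code hx.1 hi.le hj, E_code hx.1 hi hj]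
    exact_mod_cast (hx.2.2.1 i hi j).1
  · intro i j hi hj
    rw [E_code hx.1 hi.le hj]
    by_cases hj' : j + 1 < n
    · rw [E_code hx.1 hi hj']
      exact_mod_cast (hx.2.2.1 i hi j).2
    · rw [E_out (by omega)]
      exact Int.natCast_nonneg _
  · intro i hi
    rw [Finset.sum_congr rfl fun j hj => E_code hx.1 hi (Finset.mem_range.mp hj),
      Finset.sum_congr rfl fun j hj => E_code hx.1 hi.le (Finset.mem_range.mp hj)]
    exact_mod_cast hx.2.2.2 i hi
  · intro j hj
    rw [E_code hx.1 le_rfl hj, hx.2.1 n le_rfl j]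

theorem code_surj (hlz : ∀ j, n ≤ j → lam j = 0) {y : Fin n × Fin n → ℤ}
    (hy : y ∈ P (MM n) (bb n lam nu)) : ∃ x ∈ GTP n lam nu, code n x = y := by
  rw [mem_iff] at hy
  obtain ⟨h0, h1, h2, h3⟩ := hy
  have hnn : ∀ i, i ≤ n → ∀ j, 0 ≤ E n i j y := by
    intro i
    induction i with
    | zero => intro _ j; rw [E_zero]
    | succ i ih =>
      intro hi j
      by_cases hj : j < n
      · exact (ih (by omega) j).trans (h0 i j hi hj)
      · rw [E_out (by omega)]
  let x : ℕ → ℕ → ℕ := fun i j => if n ≤ i then lam j else (E n i j y).toNat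
  have hx : ∀ i, i ≤ n → ∀ j, (x i j : ℤ) = E n i j y := by
    intro i hi j
    by_cases h : n ≤ i
    · have : i = n := le_antisymm hi h
      subst this
      simp only [x, le_refl, if_true]
      by_cases hj : j < i
      · rw [h3 j hj]
      · rw [E_out (by omega), hlz j (by omega)]
        rfl
    · simp only [x]
      rw [if_neg h]
      exact Int.toNat_of_nonneg (hnn i hi j)
  refine ⟨x, ⟨?_, ?_, ?_, ?_⟩, ?_⟩
  · intro j
    have := hx 0 (Nat.zero_le _) j
    rw [E_zero] at this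
    exact_mod_cast this
  · intro i hi j
    simp only [x]
    rw [if_pos hi]
  · intro i hi j
    have e1 := hx i hi.le j
    have e2 := hx (i + 1) hi j
    have e3 := hx (i + 1) hi (j + 1)
    by_cases hj : j < n
    · have f1 := h0 i j hi hj
      have f2 := h1 i j hi hj
      rw [← e1, ← e2] at f1
      rw [← e1, ← e3] at f2
      exact ⟨by exact_mod_cast f1, by exact_mod_cast f2⟩
    · rw [E_out (by omega)] at e1 e2 e3
      constructor
      · have : x i j = 0 := by exact_mod_cast e1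
        omega
      · have : x (i + 1) (j + 1) = 0 := by exact_mod_cast e3
        omega
  · intro i hi
    have f := h2 i hi
    rw [← Finset.sum_congr rfl fun j _ => hx (i + 1) hi j,
      ← Finset.sum_congr rfl fun j _ => hx i hi.le j] at f
    exact_mod_cast f
  · funext p
    simp only [code]
    rw [hx (p.1 + 1) p.1.2 p.2, E_apply]

theorem K_eq_ncard (hlz : ∀ j, n ≤ j → lam j = 0) :
    K n lam nu = (P (MM n) (bb n lam nu)).ncard := by
  unfold K
  have himg : P (MM n) (bb n lam nu) = code n '' GTP n lam nu := by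
    ext y
    constructor
    · intro hy
      obtain ⟨x, hx, rfl⟩ := code_surj hlz hy
      exact ⟨x, hx, rfl⟩
    · rintro ⟨x, hx, rfl⟩
      exact code_mem hx
  rw [himg]
  symm
  apply Set.InjOn.ncard_image
  intro x hx x' hx' h
  funext i j
  by_cases hi : n ≤ i
  · rw [hx.2.1 i hi, hx'.2.1 i hi]
  · by_cases hj : j < n
    · have e1 := E_code (n := n) hx.1 (show i ≤ n by omega) hj
      have e2 := E_code (n := n) hx'.1 (show i ≤ n by omega) hj
      rw [h, e2] at e1
      exact_mod_cast e1.symm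
    · rw [gt_zero hx i (by omega) j (by omega), gt_zero hx' i (by omega) j (by omega)]

/-- the stretched function -/
noncomputable def F (n : ℕ) (lam nu : ℕ → ℕ) : ℕ → ℕ :=
  fun k => K n (fun j => k * lam j) (fun j => k * nu j)

theorem finite_F (n m : ℕ) (hm : 1 ≤ m) :
    {f : ℕ → ℕ | ∃ lam nu : ℕ → ℕ, (∀ j, n ≤ j → lam j = 0) ∧ K n lam nu = m ∧
      f = F n lam nu}.Finite := by
  apply (finite_functions (MM n) m hm).subset
  rintro f ⟨lam, nu, hlz, hK, rfl⟩
  refine ⟨bb n lam nu, ?_, ?_⟩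
  · rw [← K_eq_ncard hlz, hK]
  · intro k
    unfold F
    rw [K_eq_ncard (fun j hj => by rw [hlz j hj, mul_zero])]
    congr 2
    funext q
    simp only [bb]
    split_ifs <;> push_cast <;> ring

end Pool.Agent.H634R3.KF
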