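import Pool.Agent.H634R3.Kostka.GT

set_option autoImplicit false

/-!
# Semistandard tableaux and Gelfand–Tsetlin patterns
-/

namespace Pool.Agent.H634R3.KF

open Finset

/-- semistandard tableaux of shape `L` and content `V`, as in the frozen statement -/
def SST (L V : ℕ → ℕ) : Set (ℕ × ℕ → ℕ) :=
  {T | (∀ x : ℕ × ℕ, ¬ (x.2 < L x.1) → T x = 0) ∧
    (∀ i j : ℕ, j + 1 < L i → T (i, j) ≤ T (i, j + 1)) ∧
    (∀ i j : ℕ, j < L (i + 1) → T (i, j) < T (i + 1, j)) ∧
    (∀ c : ℕ, Set.ncard {x : ℕ × ℕ | x.2 < L x.1 ∧ T x = c} = V c)}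

/-- the relation between a tableau and its pattern -/
def Rel (L : ℕ → ℕ) (T : ℕ × ℕ → ℕ) (x : ℕ → ℕ → ℕ) : Prop :=
  (∀ i j c, c < L j → (T (j, c) < i ↔ c < x i j)) ∧ ∀ i j, x i j ≤ L j

variable {N : ℕ} {L V : ℕ → ℕ}

theorem Rel.eq_iff {T : ℕ × ℕ → ℕ} {x : ℕ → ℕ → ℕ} (h : Rel L T x) (i j c : ℕ) :
    (c < L j ∧ T (j, c) = i) ↔ (x i j ≤ c ∧ c < x (i + 1) j) := by
  constructor
  · rintro ⟨h1, h2⟩
    have e1 := h.1 i j c h1
    have e2 := h.1 (i + 1) j c h1
    omega
  · rintro ⟨h1, h2⟩
    have h3 := h.2 (i + 1) j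
    have e1 := h.1 i j c (by omega)
    have e2 := h.1 (i + 1) j c (by omega)
    omega

theorem Rel.ncard (hL : Antitone L) (hz : ∀ j, N ≤ j → L j = 0) {T : ℕ × ℕ → ℕ}
    {x : ℕ → ℕ → ℕ} (h : Rel L T x) (i : ℕ) :
    Set.ncard {p : ℕ × ℕ | p.2 < L p.1 ∧ T p = i} = ∑ j ∈ range N, (x (i + 1) j - x i j) := by
  classical
  have hset : {p : ℕ × ℕ | p.2 < L p.1 ∧ T p = i} =
      ↑((range N ×ˢ range (L 0)).filter (fun p : ℕ × ℕ => p.2 < L p.1 ∧ T p = i)) := by
    ext p
    simp only [Set.mem_ofPred_eq, Finset.coe_filter, Finset.mem_product, Finset.mem_range]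
    constructor
    · rintro ⟨h1, h2⟩
      refine ⟨⟨?_, ?_⟩, h1, h2⟩
      · by_contra hc
        rw [hz p.1 (by omega)] at h1
        omega
      · exact lt_of_lt_of_le h1 (hL (Nat.zero_le _))
    · rintro ⟨_, h1, h2⟩
      exact ⟨h1, h2⟩
  rw [hset, Set.ncard_coe_finset, Finset.card_filter, Finset.sum_product]
  apply Finset.sum_congr rfl
  intro j _
  rw [← Finset.card_filter, ← Nat.card_Ico]
  congr 1
  ext c
  simp only [Finset.mem_filter, Finset.mem_range, Finset.mem_Ico]
  rw [h.eq_iff i j c]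
  constructor
  · rintro ⟨_, h2⟩
    exact h2
  · intro h2
    refine ⟨?_, h2⟩
    have h3 := h.2 (i + 1) j
    have h4 := hL (Nat.zero_le j)
    omega

/-- pattern of a tableau -/
def toPat (L : ℕ → ℕ) (T : ℕ × ℕ → ℕ) : ℕ → ℕ → ℕ :=
  fun i j => ((range (L j)).filter (fun c => T (j, c) < i)).card

/-- tableau of a pattern -/
noncomputable def toTab (x : ℕ → ℕ → ℕ) : ℕ × ℕ → ℕ := fun p => sInf {i | p.2 < x (i + 1) p.1}

theorem rel_toPat {T : ℕ × ℕ → ℕ} (hT : T ∈ SST L V) : Rel L T (toPat L T) := by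
  have hmono : ∀ j c c', c ≤ c' → c' < L j → T (j, c) ≤ T (j, c') := by
    intro j c c' h
    induction c', h using Nat.le_induction with
    | base => intro _; exact le_rfl
    | succ d hd ih =>
      intro h
      exact (ih (by omega)).trans (hT.2.1 j d h)
  constructor
  · intro i j c hc
    unfold toPat
    constructor
    · intro h
      have hsub : range (c + 1) ⊆ (range (L j)).filter (fun c => T (j, c) < i) := by
        intro d hd
        rw [Finset.mem_range] at hd
        rw [Finset.mem_filter, Finset.mem_range]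
        exact ⟨by omega, lt_of_le_of_lt (hmono j d c (by omega) hc) h⟩
      have := Finset.card_le_card hsub
      rw [Finset.card_range] at this
      omega
    · intro h
      by_contra hcon
      have hsub : (range (L j)).filter (fun c => T (j, c) < i) ⊆ range c := by
        intro d hd
        rw [Finset.mem_filter, Finset.mem_range] at hd
        rw [Finset.mem_range]
        by_contra hcd
        have := hmono j c d (by omega) hd.1
        omega
      have := Finset.card_le_card hsub
      rw [Finset.card_range] at this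
      omega
  · intro i j
    unfold toPat
    have := Finset.card_filter_le (range (L j)) (fun c => T (j, c) < i)
    rwa [Finset.card_range] at this

theorem toPat_mem (hL : Antitone L) (hz : ∀ j, N ≤ j → L j = 0) (hV : ∀ j, N ≤ j → V j = 0)
    {T : ℕ × ℕ → ℕ} (hT : T ∈ SST L V) : toPat L T ∈ GTP N L V := by
  have hrel := rel_toPat hT
  have hmono : ∀ i j, toPat L T i j ≤ toPat L T (i + 1) j := by
    intro i j
    unfold toPat
    apply Finset.card_le_card
    intro c hc
    rw [Finset.mem_filter] at hc ⊢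
    exact ⟨hc.1, by omega⟩
  have hbig : ∀ i, N ≤ i → ∀ j, toPat L T i j = L j := by
    intro i hi j
    apply le_antisymm (hrel.2 i j)
    by_contra hcon
    push Not at hcon
    -- the cell `(j, toPat i j)` has an entry at least `i ≥ N`
    have h1 := hrel.1 i j (toPat L T i j) hcon
    have h2 : ¬ T (j, toPat L T i j) < i := fun h => absurd (h1.mp h) (lt_irrefl _)
    have h3 := hT.2.2.2 (T (j, toPat L T i j))
    rw [hV _ (by omega), hrel.ncard hL hz] at h3
    rw [Finset.sum_eq_zero_iff] at h3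
    have hjN : j < N := by
      by_contra h
      rw [hz j (by omega)] at hcon
      omega
    have h4 := h3 j (Finset.mem_range.mpr hjN)
    have h5 := (hrel.eq_iff (T (j, toPat L T i j)) j (toPat L T i j)).mp ⟨hcon, rfl⟩
    omega
  refine ⟨?_, hbig, ?_, ?_⟩
  · intro j
    unfold toPat
    simp
  · intro i hi j
    refine ⟨hmono i j, ?_⟩
    by_contra hcon
    push Not at hcon
    have h1 : toPat L T i j < L (j + 1) := lt_of_lt_of_le hcon (hrel.2 (i + 1) (j + 1))
    have h2 := (hrel.1 (i + 1) (j + 1) _ h1).mpr hcon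
    have h3 := hT.2.2.1 j (toPat L T i j) h1
    have h4 : toPat L T i j < L j := lt_of_lt_of_le h1 (hL (Nat.le_succ j))
    have h5 := (hrel.1 i j _ h4).mp (by omega)
    omega
  · intro i hi
    have h1 := hT.2.2.2 i
    rw [hrel.ncard hL hz] at h1
    rw [← h1, ← Finset.sum_add_distrib]
    apply Finset.sum_congr rfl
    intro j _
    have := hmono i j
    omega

theorem rel_toTab (hz : ∀ j, N ≤ j → L j = 0) {x : ℕ → ℕ → ℕ} (hx : x ∈ GTP N L V) :
    Rel L (toTab x) x := by
  refine ⟨?_, fun i j => gt_le_lam hx i j⟩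
  intro i j c hc
  have hjN : j < N := by
    by_contra h
    rw [hz j (by omega)] at hc
    omega
  have hne : {i | c < x (i + 1) j}.Nonempty := by
    refine ⟨N, ?_⟩
    simp only [Set.mem_ofPred_eq]
    rw [hx.2.1 (N + 1) (by omega) j]
    exact hc
  constructor
  · intro h
    have h1 : c < x (toTab x (j, c) + 1) j := Nat.sInf_mem hne
    exact lt_of_lt_of_le h1 (gt_mono hx j (show toTab x (j, c) + 1 ≤ i from h))
  · intro h
    rcases Nat.eq_zero_or_pos i with rfl | hi
    · rw [hx.1] at h
      omega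
    · have : toTab x (j, c) ≤ i - 1 := by
        apply Nat.sInf_le
        simp only [Set.mem_ofPred_eq]
        rwa [Nat.sub_add_cancel hi]
      omega

theorem toTab_mem (hL : Antitone L) (hz : ∀ j, N ≤ j → L j = 0) (hV : ∀ j, N ≤ j → V j = 0)
    {x : ℕ → ℕ → ℕ} (hx : x ∈ GTP N L V) : toTab x ∈ SST L V := by
  have hrel := rel_toTab hz hx
  refine ⟨?_, ?_, ?_, ?_⟩
  · rintro ⟨j, c⟩ h
    simp only at h
    have : {i | c < x (i + 1) j} = ∅ := by
      apply Set.eq_empty_of_forall_notMem
      intro i hi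
      simp only [Set.mem_ofPred_eq] at hi
      have := gt_le_lam hx (i + 1) j
      omega
    simp only [toTab]
    rw [this]
    exact Nat.sInf_empty
  · intro i j h
    have h1 := (hrel.1 (toTab x (i, j + 1) + 1) i (j + 1) h).mp (Nat.lt_succ_self _)
    have h2 := (hrel.1 (toTab x (i, j + 1) + 1) i j (by omega)).mpr (by omega)
    omega
  · intro i j h
    have hLi : j < L i := lt_of_lt_of_le h (hL (Nat.le_succ i))
    have h1 := (hrel.1 (toTab x (i + 1, j) + 1) (i + 1) j h).mp (Nat.lt_succ_self _)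
    apply (hrel.1 (toTab x (i + 1, j)) i j hLi).mpr
    by_cases ht : toTab x (i + 1, j) < N
    · exact lt_of_lt_of_le h1 (hx.2.2.1 _ ht i).2
    · rw [hx.2.1 _ (by omega) i]
      exact hLi
  · intro c
    rw [hrel.ncard hL hz]
    by_cases hc : c < N
    · have h1 := hx.2.2.2 c hc
      have h2 : ∑ j ∈ range N, x (c + 1) j =
          ∑ j ∈ range N, x c j + ∑ j ∈ range N, (x (c + 1) j - x c j) := by
        rw [← Finset.sum_add_distrib]
        apply Finset.sum_congr rfl
        intro j _
        have := gt_mono_succ hx c j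
        omega
      omega
    · rw [hV c (by omega)]
      apply Finset.sum_eq_zero
      intro j _
      rw [hx.2.1 c (by omega), hx.2.1 (c + 1) (by omega)]
      omega

theorem card_SST (hL : Antitone L) (hz : ∀ j, N ≤ j → L j = 0) (hV : ∀ j, N ≤ j → V j = 0) :
    Nat.card (SST L V) = K N L V := by
  unfold K
  rw [Nat.card_coe_set_eq]
  have himg : GTP N L V = toPat L '' SST L V := by
    ext x
    constructor
    · intro hx
      refine ⟨toTab x, toTab_mem hL hz hV hx, ?_⟩
      have h1 := rel_toTab hz hx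
      have h2 := rel_toPat (toTab_mem hL hz hV hx)
      funext i j
      apply le_antisymm
      · by_contra hcon
        push Not at hcon
        have h3 := lt_of_lt_of_le hcon (h2.2 i j)
        have h4 := (h1.1 i j _ h3).mp ((h2.1 i j _ h3).mpr hcon)
        omega
      · by_contra hcon
        push Not at hcon
        have h3 := lt_of_lt_of_le hcon (h1.2 i j)
        have h4 := (h2.1 i j _ h3).mp ((h1.1 i j _ h3).mpr hcon)
        omega
    · rintro ⟨T, hT, rfl⟩
      exact toPat_mem hL hz hV hT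
  rw [himg]
  symm
  apply Set.InjOn.ncard_image
  intro T hT T' hT' h
  have h1 := rel_toPat hT
  have h2 := rel_toPat hT'
  rw [← h] at h2
  funext p
  obtain ⟨j, c⟩ := p
  by_cases hc : c < L j
  · apply le_antisymm
    · by_contra hcon
      push Not at hcon
      have h3 := (h1.1 _ j c hc).mpr ((h2.1 (T' (j, c) + 1) j c hc).mp (Nat.lt_succ_self _))
      omega
    · by_contra hcon
      push Not at hcon
      have h3 := (h2.1 _ j c hc).mpr ((h1.1 (T (j, c) + 1) j c hc).mp (Nat.lt_succ_self _))
      omega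
  · rw [hT.1 (j, c) hc, hT'.1 (j, c) hc]

end Pool.Agent.H634R3.KF
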