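import Pool.Agent.H634R3.Kostka.Split
import Pool.Agent.H634R3.Kostka.Poly
import Pool.Agent.H634R3.Kostka.Tab

set_option autoImplicit false

/-!
# Finitely many stretched Kostka functions with a prescribed value at `1`
-/

namespace Pool.Agent.H634R3.KF

open Finset

/-- the stretched functions of pairs with Kostka number `m` -/
def H (m : ℕ) : Set (ℕ → ℕ) :=
  {f | ∃ (n : ℕ) (lam nu : ℕ → ℕ), Antitone lam ∧ Antitone nu ∧ (∀ j, n ≤ j → lam j = 0) ∧
    K n lam nu = m ∧ f = F n lam nu}

theorem antitone_cut {a : ℕ} {lam : ℕ → ℕ} (hl : Antitone lam) : Antitone (cut a lam) := by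
  intro i j hij
  unfold cut
  split_ifs with h1 h2
  · exact hl hij
  · omega
  · exact Nat.zero_le _
  · exact le_rfl

theorem antitone_shift {a : ℕ} {lam : ℕ → ℕ} (hl : Antitone lam) : Antitone (shift a lam) := by
  intro i j hij
  unfold shift
  exact hl (by omega)

theorem antitone_mul {k : ℕ} {lam : ℕ → ℕ} (hl : Antitone lam) :
    Antitone (fun j => k * lam j) := fun _ _ h => Nat.mul_le_mul_left k (hl h)

theorem F_split {n a : ℕ} {lam nu : ℕ → ℕ} (hl : Antitone lam) (ha : a ≤ n)
    (hs : ∑ j ∈ range a, nu j = ∑ j ∈ range a, lam j) (k : ℕ) :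
    F n lam nu k = F a (cut a lam) nu k * F (n - a) (shift a lam) (shift a nu) k := by
  unfold F
  rw [K_split (antitone_mul hl) ha (by rw [← Finset.mul_sum, ← Finset.mul_sum, hs])]
  congr 2
  funext j
  unfold cut
  split_ifs
  · rfl
  · rw [mul_zero]

theorem dom_mul {n : ℕ} {lam nu : ℕ → ℕ} (hd : Dom n lam nu) (k : ℕ) :
    Dom n (fun j => k * lam j) (fun j => k * nu j) := by
  constructor
  · intro i hi
    rw [← Finset.mul_sum, ← Finset.mul_sum]
    exact Nat.mul_le_mul_left k (hd.1 i hi)
  · rw [← Finset.mul_sum, ← Finset.mul_sum, hd.2]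

theorem dom_of_K {n : ℕ} {lam nu : ℕ → ℕ} (h : 1 ≤ K n lam nu) : Dom n lam nu := by
  unfold K at h
  obtain ⟨x, hx⟩ := (Set.ncard_pos (finite_GTP n lam nu)).mp h
  exact gt_dom hx

/-- either a tight index in the middle, or strict dominance -/
theorem tight_or_prim {n : ℕ} {lam nu : ℕ → ℕ} (hd : Dom n lam nu) :
    (∃ a, 0 < a ∧ a < n ∧ ∑ j ∈ range a, nu j = ∑ j ∈ range a, lam j) ∨ Prim n lam nu := by
  by_cases h : ∃ a, 0 < a ∧ a < n ∧ ∑ j ∈ range a, nu j = ∑ j ∈ range a, lam j
  · exact Or.inl h
  · right
    refine ⟨?_, hd.2⟩
    intro i h0 hi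
    push Not at h
    exact lt_of_le_of_ne (hd.1 i hi) (h i h0 hi)

theorem three_le_of_NR {n : ℕ} {lam : ℕ → ℕ} (h : NR n lam) : 3 ≤ n := by
  by_contra hn
  unfold NR at h
  have : n = 0 ∨ n = 1 ∨ n = 2 := by omega
  rcases this with rfl | rfl | rfl
  · exact h.2 rfl
  · exact h.2 rfl
  · exact h.1 rfl

theorem F_eq_one (n : ℕ) : ∀ (lam nu : ℕ → ℕ), Antitone lam → Antitone nu →
    (∀ j, n ≤ j → lam j = 0) → K n lam nu = 1 → ∀ k, F n lam nu k = 1 := by
  induction n using Nat.strong_induction_on with
  | _ n ih =>
    intro lam nu hl hnu hz hK k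
    have hd : Dom n lam nu := dom_of_K (by omega)
    rcases tight_or_prim hd with ⟨a, ha0, han, hs⟩ | hp
    · rw [K_split hl han.le hs] at hK
      have h1 := Nat.eq_one_of_mul_eq_one_right hK
      have h2 := Nat.eq_one_of_mul_eq_one_left hK
      rw [F_split hl han.le hs,
        ih a han _ _ (antitone_cut hl) hnu (fun j hj => if_neg (by omega)) h1 k,
        ih (n - a) (by omega) _ _ (antitone_shift hl) (antitone_shift hnu)
          (fun j hj => hz _ (by omega)) h2 k]
    · by_cases hr : NR n lam
      · have h3 := three_le_of_NR hr
        have := (LBmain n h3 lam nu hl hnu hz hp hr).1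
        omega
      · apply le_antisymm
        · apply K_le_one _ (antitone_mul hl)
          intro h
          apply hr
          exact ⟨fun e => h.1 (by simp only [e]), fun e => h.2 (by simp only [e])⟩
        · exact one_le_K n _ _ (antitone_mul hl) (antitone_mul hnu)
            (fun j hj => by rw [hz j hj, mul_zero]) (dom_mul hd k)

theorem H_finite (m : ℕ) : 1 ≤ m → (H m).Finite := by
  induction m using Nat.strong_induction_on with
  | _ m ihm =>
    intro hm
    by_cases hm1 : m = 1
    · subst hm1
      apply (Set.finite_singleton (fun _ : ℕ => 1)).subset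
      rintro f ⟨n, lam, nu, hl, hnu, hz, hK, rfl⟩
      rw [Set.mem_singleton_iff]
      funext k
      exact F_eq_one n lam nu hl hnu hz hK k
    · -- the finite target set
      let T1 : Set (ℕ → ℕ) := ⋃ n ∈ Finset.range (2 * m + 1),
        {f : ℕ → ℕ | ∃ lam nu : ℕ → ℕ, (∀ j, n ≤ j → lam j = 0) ∧ K n lam nu = m ∧
          f = F n lam nu}
      let T2 : Set (ℕ → ℕ) := ⋃ d ∈ Finset.Ico 1 m, ⋃ e ∈ Finset.Ico 1 m,
        Set.image2 (fun f g : ℕ → ℕ => f * g) (H d) (H e)
      have hT1 : T1.Finite := by
        apply Set.Finite.biUnion (Finset.finite_toSet _)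
        intro n _
        exact finite_F n m hm
      have hT2 : T2.Finite := by
        apply Set.Finite.biUnion (Finset.finite_toSet _)
        intro d hd
        apply Set.Finite.biUnion (Finset.finite_toSet _)
        intro e he
        simp only [Finset.coe_Ico, Set.mem_Ico] at hd he
        exact Set.Finite.image2 _ (ihm d hd.2 hd.1) (ihm e he.2 he.1)
      apply (hT1.union hT2).subset
      have key : ∀ (n : ℕ) (lam nu : ℕ → ℕ), Antitone lam → Antitone nu →
          (∀ j, n ≤ j → lam j = 0) → K n lam nu = m → F n lam nu ∈ T1 ∪ T2 := by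
        intro n
        induction n using Nat.strong_induction_on with
        | _ n ih =>
          intro lam nu hl hnu hz hK
          have hd : Dom n lam nu := dom_of_K (by omega)
          rcases tight_or_prim hd with ⟨a, ha0, han, hs⟩ | hp
          · have hK' := hK
            rw [K_split hl han.le hs] at hK'
            have hF : F n lam nu = F a (cut a lam) nu * F (n - a) (shift a lam) (shift a nu) := by
              funext k
              exact F_split hl han.le hs k
            have hcz : ∀ j, a ≤ j → cut a lam j = 0 := fun j hj => if_neg (by omega)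
            have hsz : ∀ j, n - a ≤ j → shift a lam j = 0 := fun j hj => hz _ (by omega)
            by_cases h1 : K a (cut a lam) nu = 1
            · rw [h1, one_mul] at hK'
              have : F n lam nu = F (n - a) (shift a lam) (shift a nu) := by
                rw [hF]
                funext k
                rw [Pi.mul_apply, F_eq_one a _ _ (antitone_cut hl) hnu hcz h1 k, one_mul]
              rw [this]
              exact ih (n - a) (by omega) _ _ (antitone_shift hl) (antitone_shift hnu) hsz hK'
            · by_cases h2 : K (n - a) (shift a lam) (shift a nu) = 1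
              · rw [h2, mul_one] at hK'
                have : F n lam nu = F a (cut a lam) nu := by
                  rw [hF]
                  funext k
                  rw [Pi.mul_apply, F_eq_one (n - a) _ _ (antitone_shift hl)
                    (antitone_shift hnu) hsz h2 k, mul_one]
                rw [this]
                exact ih a han _ _ (antitone_cut hl) hnu hcz hK'
              · right
                have hpos1 : 0 < K a (cut a lam) nu := by
                  rcases Nat.eq_zero_or_pos (K a (cut a lam) nu) with h | h
                  · rw [h, zero_mul] at hK'; omega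
                  · exact h
                have hpos2 : 0 < K (n - a) (shift a lam) (shift a nu) := by
                  rcases Nat.eq_zero_or_pos (K (n - a) (shift a lam) (shift a nu)) with h | h
                  · rw [h, mul_zero] at hK'; omega
                  · exact h
                have g1 : 2 ≤ K a (cut a lam) nu := by omega
                have g2 : 2 ≤ K (n - a) (shift a lam) (shift a nu) := by omega
                have hlt1 : K a (cut a lam) nu < m := by
                  rw [← hK']
                  nlinarith [Nat.mul_le_mul_left (K a (cut a lam) nu) g2]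
                have hlt2 : K (n - a) (shift a lam) (shift a nu) < m := by
                  rw [← hK']
                  nlinarith [Nat.mul_le_mul_right (K (n - a) (shift a lam) (shift a nu)) g1]
                rw [hF]
                simp only [T2, Set.mem_iUnion]
                refine ⟨K a (cut a lam) nu, ?_, K (n - a) (shift a lam) (shift a nu), ?_, ?_⟩
                · rw [Finset.mem_Ico]; omega
                · rw [Finset.mem_Ico]; omega
                · exact Set.mem_image2_of_mem
                    ⟨a, _, _, antitone_cut hl, hnu, hcz, rfl, rfl⟩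
                    ⟨n - a, _, _, antitone_shift hl, antitone_shift hnu, hsz, rfl, rfl⟩
          · left
            by_cases hr : NR n lam
            · have h3 := three_le_of_NR hr
              have h4 := (LBmain n h3 lam nu hl hnu hz hp hr).1
              simp only [T1, Set.mem_iUnion]
              refine ⟨n, ?_, lam, nu, hz, hK, rfl⟩
              rw [Finset.mem_range]
              omega
            · have := K_le_one (nu := nu) hr hl
              omega
      rintro f ⟨n, lam, nu, hl, hnu, hz, hK, rfl⟩
      exact key n lam nu hl hnu hz hK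

/-- the finiteness theorem, for polynomials -/
theorem finite_poly (m : ℕ) : Set.Finite {p : Polynomial ℚ | p.eval 1 = (m : ℚ) ∧
      ∃ lam nu : ℕ → ℕ, Antitone lam ∧ Antitone nu ∧
        (∃ N : ℕ, ∀ i, N ≤ i → lam i = 0 ∧ nu i = 0) ∧
        ∀ k : ℕ, 1 ≤ k → p.eval (k : ℚ) =
          ((Nat.card (SST (fun j => k * lam j) (fun j => k * nu j)) : ℕ) : ℚ)} := by
  -- a polynomial is determined by its values at the positive integers
  have hinj : ∀ p q : Polynomial ℚ, (∀ k : ℕ, 1 ≤ k → p.eval (k : ℚ) = q.eval (k : ℚ)) →
      p = q := by
    intro p q h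
    apply Polynomial.eq_of_infinite_eval_eq
    have : Set.Infinite (Set.range fun k : ℕ => ((k + 1 : ℕ) : ℚ)) := by
      apply Set.infinite_range_of_injective
      intro a b hab
      simp only [Nat.cast_inj] at hab
      omega
    apply this.mono
    rintro _ ⟨k, rfl⟩
    exact h (k + 1) (by omega)
  -- the values are the function `F`
  have hval : ∀ (lam nu : ℕ → ℕ), Antitone lam → Antitone nu → ∀ N : ℕ,
      (∀ i, N ≤ i → lam i = 0 ∧ nu i = 0) → ∀ k : ℕ,
      Nat.card (SST (fun j => k * lam j) (fun j => k * nu j)) = F N lam nu k := by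
    intro lam nu hl hnu N hN k
    unfold F
    exact card_SST (antitone_mul hl) (fun j hj => by rw [(hN j hj).1, mul_zero])
      (fun j hj => by rw [(hN j hj).2, mul_zero])
  rcases Nat.eq_zero_or_pos m with rfl | hm
  · apply (Set.finite_singleton (0 : Polynomial ℚ)).subset
    rintro p ⟨hp1, lam, nu, hl, hnu, ⟨N, hN⟩, hk⟩
    rw [Set.mem_singleton_iff]
    have hK : K N lam nu = 0 := by
      have h1 := hk 1 le_rfl
      rw [hval lam nu hl hnu N hN 1, Nat.cast_one, hp1] at h1
      have h2 : F N lam nu 1 = K N lam nu := by
        unfold F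
        simp only [one_mul]
      rw [h2] at h1
      exact_mod_cast h1.symm
    apply hinj
    intro k hk1
    rw [hk k hk1, hval lam nu hl hnu N hN k, Polynomial.eval_zero]
    norm_cast
    by_contra hne
    have hd : Dom N (fun j => k * lam j) (fun j => k * nu j) :=
      dom_of_K (Nat.one_le_iff_ne_zero.mpr hne)
    have hd' : Dom N lam nu := by
      constructor
      · intro i hi
        have := hd.1 i hi
        rw [← Finset.mul_sum, ← Finset.mul_sum] at this
        exact Nat.le_of_mul_le_mul_left this hk1
      · have := hd.2
        rw [← Finset.mul_sum, ← Finset.mul_sum] at this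
        exact Nat.eq_of_mul_eq_mul_left hk1 this
    have := one_le_K N lam nu hl hnu (fun j hj => (hN j hj).1) hd'
    omega
  · -- injection into the finite set `H m`
    have hfin := (H_finite m hm).image (fun f : ℕ → ℕ => fun k : ℕ => (f (k + 1) : ℚ))
    apply Set.Finite.of_finite_image
      (f := fun (p : Polynomial ℚ) (k : ℕ) => p.eval ((k + 1 : ℕ) : ℚ))
    · apply hfin.subset
      rintro _ ⟨p, ⟨hp1, lam, nu, hl, hnu, ⟨N, hN⟩, hk⟩, rfl⟩
      refine ⟨F N lam nu, ⟨N, lam, nu, hl, hnu, fun j hj => (hN j hj).1, ?_, rfl⟩, ?_⟩
      · have h1 := hk 1 le_rfl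
        rw [hval lam nu hl hnu N hN 1, Nat.cast_one, hp1] at h1
        have h2 : F N lam nu 1 = K N lam nu := by
          unfold F
          simp only [one_mul]
        rw [h2] at h1
        exact_mod_cast h1.symm
      · funext k
        simp only
        rw [hk (k + 1) (by omega), hval lam nu hl hnu N hN]
    · intro p _ q _ h
      apply hinj
      intro k hk
      have := congrFun h (k - 1)
      simp only at this
      rwa [Nat.sub_add_cancel hk] at this

end Pool.Agent.H634R3.KF
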