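import Pool.Agent.H634R3.Kostka.LB2

set_option autoImplicit false

/-!
# Splitting at a tight index, and rigid pairs
-/

namespace Pool.Agent.H634R3.KF

open Finset

/-- first rows -/
def cut (a : ℕ) (lam : ℕ → ℕ) : ℕ → ℕ := fun j => if j < a then lam j else 0

/-- remaining rows -/
def shift (a : ℕ) (lam : ℕ → ℕ) : ℕ → ℕ := fun j => lam (j + a)

/-- gluing two patterns -/
def glue (a : ℕ) (p : (ℕ → ℕ → ℕ) × (ℕ → ℕ → ℕ)) : ℕ → ℕ → ℕ :=
  fun i j => if j < a then p.1 i j else p.2 (i - a) (j - a)

variable {n a : ℕ} {lam nu : ℕ → ℕ}

theorem sum_split (f : ℕ → ℕ) (ha : a ≤ n) :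
    ∑ j ∈ range n, f j = ∑ j ∈ range a, f j + ∑ j ∈ range (n - a), f (j + a) := by
  obtain ⟨d, rfl⟩ := Nat.exists_eq_add_of_le ha
  rw [Finset.sum_range_add, Nat.add_sub_cancel_left]
  congr 1
  exact Finset.sum_congr rfl fun j _ => by rw [add_comm]

theorem glue_mem (hl : Antitone lam) (ha : a ≤ n)
    {p : (ℕ → ℕ → ℕ) × (ℕ → ℕ → ℕ)}
    (hp : p ∈ GTP a (cut a lam) nu ×ˢ GTP (n - a) (shift a lam) (shift a nu)) :
    glue a p ∈ GTP n lam nu := by
  obtain ⟨x, y⟩ := p
  obtain ⟨hx, hy⟩ := hp
  simp only at hx hy
  have hxa : ∀ i, a ≤ i → ∀ j, j < a → x i j = lam j := by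
    intro i hi j hj
    rw [hx.2.1 i hi j, cut, if_pos hj]
  refine ⟨?_, ?_, ?_, ?_⟩
  · intro j
    simp only [glue]
    rw [Nat.zero_sub, hx.1, hy.1]
    simp
  · intro i hi j
    simp only [glue]
    split_ifs with hj
    · exact hxa i (ha.trans hi) j hj
    · rw [hy.2.1 (i - a) (by omega) (j - a), shift, Nat.sub_add_cancel (by omega)]
  · intro i hi j
    simp only [glue]
    constructor
    · split_ifs with hj
      · exact gt_mono_succ hx i j
      · exact gt_mono hy (j - a) (show i - a ≤ i + 1 - a by omega)
    · by_cases hj : j + 1 < a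
      · rw [if_pos hj, if_pos (by omega)]
        by_cases hia : i < a
        · exact (hx.2.2.1 i hia j).2
        · rw [hxa (i + 1) (by omega) (j + 1) hj, hxa i (by omega) j (by omega)]
          exact hl (Nat.le_succ j)
      · rw [if_neg hj]
        by_cases hia : i < a
        · rw [show i + 1 - a = 0 by omega, hy.1]
          exact Nat.zero_le _
        · by_cases hj' : j < a
          · rw [if_pos hj', hxa i (by omega) j hj']
            have h1 := gt_le_lam hy (i + 1 - a) (j + 1 - a)
            rw [shift, Nat.sub_add_cancel (by omega)] at h1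
            exact h1.trans (hl (Nat.le_succ j))
          · rw [if_neg hj']
            have h1 := (hy.2.2.1 (i - a) (by omega) (j - a)).2
            rw [show i - a + 1 = i + 1 - a by omega, show j - a + 1 = j + 1 - a by omega] at h1
            exact h1
  · intro i hi
    rw [sum_split _ ha, sum_split _ ha]
    have e1 : ∀ k, ∑ j ∈ range a, glue a (x, y) k j = ∑ j ∈ range a, x k j := by
      intro k
      apply Finset.sum_congr rfl
      intro j hj
      simp only [glue]
      rw [if_pos (Finset.mem_range.mp hj)]
    have e2 : ∀ k, ∑ j ∈ range (n - a), glue a (x, y) k (j + a) =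
        ∑ j ∈ range (n - a), y (k - a) j := by
      intro k
      apply Finset.sum_congr rfl
      intro j hj
      simp only [glue]
      rw [if_neg (by omega), Nat.add_sub_cancel]
    rw [e1, e1, e2, e2]
    by_cases hia : i < a
    · rw [hx.2.2.2 i hia, show i + 1 - a = i - a by omega]
      ring
    · have e3 : ∑ j ∈ range a, x (i + 1) j = ∑ j ∈ range a, x i j := by
        apply Finset.sum_congr rfl
        intro j hj
        rw [hxa (i + 1) (by omega) j (Finset.mem_range.mp hj),
          hxa i (by omega) j (Finset.mem_range.mp hj)]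
      have e4 := hy.2.2.2 (i - a) (by omega)
      rw [show i - a + 1 = i + 1 - a by omega] at e4
      rw [e3, e4]
      simp only [shift]
      rw [Nat.sub_add_cancel (by omega)]
      ring

/-- at a tight index the first rows are completed -/
theorem tight (ha : a ≤ n) (hs : ∑ j ∈ range a, nu j = ∑ j ∈ range a, lam j)
    {x : ℕ → ℕ → ℕ} (hx : x ∈ GTP n lam nu) : ∀ i, a ≤ i → ∀ j, j < a → x i j = lam j := by
  have h1 : ∑ j ∈ range a, x a j = ∑ j ∈ range a, lam j := by
    rw [gt_sum_eq' hx a ha, hs]
  have h2 := (Finset.sum_eq_sum_iff_of_le (fun j _ => gt_le_lam hx a j)).mp h1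
  intro i hi j hj
  apply le_antisymm (gt_le_lam hx i j)
  rw [← h2 j (Finset.mem_range.mpr hj)]
  exact gt_mono hx j hi

theorem unglue_mem (ha : a ≤ n) (hs : ∑ j ∈ range a, nu j = ∑ j ∈ range a, lam j)
    {x : ℕ → ℕ → ℕ} (hx : x ∈ GTP n lam nu) :
    (fun i => cut a (x i)) ∈ GTP a (cut a lam) nu ∧
      (fun i => shift a (x (i + a))) ∈ GTP (n - a) (shift a lam) (shift a nu) := by
  have ht := tight ha hs hx
  constructor
  · refine ⟨?_, ?_, ?_, ?_⟩
    · intro j
      simp only [cut, hx.1]
      simp
    · intro i hi j
      simp only [cut]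
      split_ifs with hj
      · exact ht i hi j hj
      · rfl
    · intro i hi j
      simp only [cut]
      constructor
      · split_ifs with hj
        · exact gt_mono_succ hx i j
        · exact le_rfl
      · by_cases hj : j + 1 < a
        · rw [if_pos hj, if_pos (by omega)]
          exact (hx.2.2.1 i (by omega) j).2
        · rw [if_neg hj]
          exact Nat.zero_le _
    · intro i hi
      have e1 : ∀ k, k ≤ a → ∑ j ∈ range a, cut a (x k) j = ∑ j ∈ range n, x k j := by
        intro k hk
        rw [sum_split _ ha]
        have : ∑ j ∈ range (n - a), x k (j + a) = 0 :=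
          Finset.sum_eq_zero fun j _ => gt_zero hx k (hk.trans ha) (j + a) (by omega)
        rw [this, add_zero]
        apply Finset.sum_congr rfl
        intro j hj
        rw [cut, if_pos (Finset.mem_range.mp hj)]
      rw [e1 _ (by omega), e1 _ (by omega)]
      exact hx.2.2.2 i (by omega)
  · refine ⟨?_, ?_, ?_, ?_⟩
    · intro j
      simp only [shift]
      rw [Nat.zero_add]
      exact gt_zero hx a ha (j + a) (by omega)
    · intro i hi j
      simp only [shift]
      exact hx.2.1 (i + a) (by omega) (j + a)
    · intro i hi j
      simp only [shift]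
      have h1 := hx.2.2.1 (i + a) (by omega) (j + a)
      rw [show i + a + 1 = i + 1 + a by omega, show j + a + 1 = j + 1 + a by omega] at h1
      exact h1
    · intro i hi
      have h1 := hx.2.2.2 (i + a) (by omega)
      rw [sum_split _ ha, sum_split _ ha] at h1
      have e3 : ∑ j ∈ range a, x (i + a + 1) j = ∑ j ∈ range a, x (i + a) j := by
        apply Finset.sum_congr rfl
        intro j hj
        rw [ht (i + a + 1) (by omega) j (Finset.mem_range.mp hj),
          ht (i + a) (by omega) j (Finset.mem_range.mp hj)]
      rw [e3] at h1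
      simp only [shift]
      rw [show i + a + 1 = i + 1 + a by omega] at h1
      omega

theorem K_split (hl : Antitone lam) (ha : a ≤ n)
    (hs : ∑ j ∈ range a, nu j = ∑ j ∈ range a, lam j) :
    K n lam nu = K a (cut a lam) nu * K (n - a) (shift a lam) (shift a nu) := by
  unfold K
  rw [← Set.ncard_prod]
  have himg : GTP n lam nu =
      glue a '' (GTP a (cut a lam) nu ×ˢ GTP (n - a) (shift a lam) (shift a nu)) := by
    ext x
    constructor
    · intro hx
      have h1 := unglue_mem ha hs hx
      refine ⟨(fun i => cut a (x i), fun i => shift a (x (i + a))), h1, ?_⟩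
      funext i j
      simp only [glue, cut, shift]
      split_ifs with hj
      · rfl
      · rw [show j - a + a = j by omega]
        by_cases hi : a ≤ i
        · rw [Nat.sub_add_cancel hi]
        · rw [show i - a + a = a by omega, gt_zero hx a ha j (by omega),
            gt_zero hx i (by omega) j (by omega)]
    · rintro ⟨p, hp, rfl⟩
      exact glue_mem hl ha hp
  rw [himg]
  apply Set.InjOn.ncard_image
  rintro ⟨x, y⟩ ⟨hx, hy⟩ ⟨x', y'⟩ ⟨hx', hy'⟩ h
  simp only at hx hy hx' hy'
  have e1 : x = x' := by
    funext i j
    by_cases hj : j < a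
    · have := congrFun (congrFun h i) j
      simp only [glue] at this
      rwa [if_pos hj, if_pos hj] at this
    · have h1 := gt_le_lam hx i j
      have h2 := gt_le_lam hx' i j
      rw [cut, if_neg hj] at h1 h2
      omega
  have e2 : y = y' := by
    funext i j
    have := congrFun (congrFun h (i + a)) (j + a)
    simp only [glue] at this
    rwa [if_neg (by omega), if_neg (by omega), Nat.add_sub_cancel, Nat.add_sub_cancel] at this
  rw [e1, e2]

/-- rigid pairs have at most one pattern -/
theorem K_le_one (hr : ¬ NR n lam) (hl : Antitone lam) : K n lam nu ≤ 1 := by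
  unfold K
  rw [Set.ncard_le_one (finite_GTP _ _ _)]
  intro x hx y hy
  unfold NR at hr
  by_cases hA : lam 1 = lam (n - 1)
  · -- shapes `(A, B, …, B)`
    have hconst : ∀ z ∈ GTP n lam nu, ∀ d i, i + d = n → ∀ j, 1 ≤ j → j < i →
        z i j = lam 1 := by
      intro z hz d
      induction d with
      | zero =>
        intro i hi j hj1 hj2
        rw [hz.2.1 i (by omega) j]
        have h1 := hl hj1
        have h2 := hl (show j ≤ n - 1 by omega)
        omega
      | succ d ih =>
        intro i hi j hj1 hj2
        have h1 := (hz.2.2.1 i (by omega) j).1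
        have h2 := (hz.2.2.1 i (by omega) j).2
        have h3 := ih (i + 1) (by omega) j hj1 (by omega)
        have h4 := ih (i + 1) (by omega) (j + 1) (by omega) (by omega)
        omega
    funext i j
    by_cases hi : n ≤ i
    · rw [hx.2.1 i hi, hy.2.1 i hi]
    · by_cases hj : i ≤ j
      · rw [gt_zero hx i (by omega) j hj, gt_zero hy i (by omega) j hj]
      · rcases Nat.eq_zero_or_pos j with rfl | hj1
        · have h1 := gt_sum_eq' hx i (by omega)
          have h2 := gt_sum_eq' hy i (by omega)
          obtain ⟨i', rfl⟩ : ∃ i', i = i' + 1 := ⟨i - 1, by omega⟩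
          rw [Finset.sum_range_succ'] at h1
          rw [Finset.sum_range_succ'] at h2
          have h3 : ∑ k ∈ range i', x (i' + 1) (k + 1) = ∑ k ∈ range i', y (i' + 1) (k + 1) := by
            apply Finset.sum_congr rfl
            intro k hk
            have := Finset.mem_range.mp hk
            rw [hconst x hx (n - (i' + 1)) (i' + 1) (by omega) (k + 1) (by omega) (by omega),
              hconst y hy (n - (i' + 1)) (i' + 1) (by omega) (k + 1) (by omega) (by omega)]
          omega
        · rw [hconst x hx (n - i) i (by omega) j hj1 (by omega),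
            hconst y hy (n - i) i (by omega) j hj1 (by omega)]
  · have hB : lam 0 = lam (n - 2) := by
      by_contra hB
      exact hr ⟨hA, hB⟩
    -- shapes `(A, …, A, B)`
    have hconst : ∀ z ∈ GTP n lam nu, ∀ d i, i + d = n → ∀ j, j + 1 < i →
        z i j = lam 0 := by
      intro z hz d
      induction d with
      | zero =>
        intro i hi j hj
        rw [hz.2.1 i (by omega) j]
        have h1 := hl (Nat.zero_le j)
        have h2 := hl (show j ≤ n - 2 by omega)
        omega
      | succ d ih =>
        intro i hi j hj
        have h1 := (hz.2.2.1 i (by omega) j).1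
        have h2 := (hz.2.2.1 i (by omega) j).2
        have h3 := ih (i + 1) (by omega) j (by omega)
        have h4 := ih (i + 1) (by omega) (j + 1) (by omega)
        omega
    funext i j
    by_cases hi : n ≤ i
    · rw [hx.2.1 i hi, hy.2.1 i hi]
    · by_cases hj : i ≤ j
      · rw [gt_zero hx i (by omega) j hj, gt_zero hy i (by omega) j hj]
      · by_cases hj1 : j + 1 < i
        · rw [hconst x hx (n - i) i (by omega) j hj1, hconst y hy (n - i) i (by omega) j hj1]
        · have hji : i = j + 1 := by omega
          subst hji
          have h1 := gt_sum_eq' hx (j + 1) (by omega)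
          have h2 := gt_sum_eq' hy (j + 1) (by omega)
          rw [Finset.sum_range_succ] at h1 h2
          have h3 : ∑ k ∈ range j, x (j + 1) k = ∑ k ∈ range j, y (j + 1) k := by
            apply Finset.sum_congr rfl
            intro k hk
            have := Finset.mem_range.mp hk
            rw [hconst x hx (n - (j + 1)) (j + 1) (by omega) k (by omega),
              hconst y hy (n - (j + 1)) (j + 1) (by omega) k (by omega)]
          omega

end Pool.Agent.H634R3.KF
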